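import Mathlib
import Pool.Agent.Helper20.Glimm.Multi

/-!
# The coefficient of `∏ t_j ^ 3` in `∏_r (∑_j A_rj t_j) ^ 3` for an invertible matrix mod 2
-/

set_option autoImplicit false

namespace Pool.Agent.Helper26.LC

open MvPolynomial Finset

/-- restriction of an exponent to the first `k` places -/
noncomputable def nf (k : ℕ) (n : ℕ → ℕ) : Fin k →₀ ℕ := Finsupp.equivFunOnFinite.symm (fun j => n j)

theorem nf_apply (k : ℕ) (n : ℕ → ℕ) (j : Fin k) : nf k n j = n j := rfl

/-- the linear form -/
noncomputable def lin (k : ℕ) (χ : ℕ → ZMod 2) : MvPolynomial (Fin k) (ZMod 2) :=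
  ∑ j : Fin k, C (χ j) * X j

theorem cnt_eq_coeff (k : ℕ) (l : List (ℕ → ZMod 2)) :
    ∀ n : ℕ → ℕ, Helper20.Glimm.cnt k l n = coeff (nf k n) ((l.map (lin k)).prod) := by
  induction l with
  | nil =>
    intro n
    simp only [Helper20.Glimm.cnt, List.map_nil, List.prod_nil, coeff_one]
    congr 1
    refine propext ⟨fun h => ?_, fun h j hj => ?_⟩
    · ext j
      rw [nf_apply, h j j.2]
      rfl
    · have := DFunLike.congr_fun h ⟨j, hj⟩
      rw [nf_apply] at this
      exact this.symm
  | cons χ l ih =>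
    intro n
    simp only [Helper20.Glimm.cnt, List.map_cons, List.prod_cons, lin, sum_mul, coeff_sum]
    rw [Finset.sum_range]
    refine Finset.sum_congr rfl fun j _ => ?_
    rw [mul_assoc, coeff_C_mul, coeff_X_mul']
    by_cases h0 : n j = 0
    · rw [if_pos h0, if_neg, mul_zero]
      rw [Finsupp.mem_support_iff, nf_apply, not_not]
      exact h0
    · rw [if_neg h0, if_pos, ih]
      · congr 2
        ext i
        rw [Finsupp.tsub_apply, nf_apply, nf_apply]
        by_cases hij : i = j
        · subst hij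
          simp
        · rw [Function.update_of_ne (fun h => hij (Fin.ext h)), Finsupp.single_apply,
            if_neg (Ne.symm hij), Nat.sub_zero]
      · rw [Finsupp.mem_support_iff, nf_apply]
        exact h0

section

variable (k : ℕ)

/-- the ideal generated by the fourth powers of the variables -/
noncomputable def I4 : Ideal (MvPolynomial (Fin k) (ZMod 2)) :=
  Ideal.span (Set.range fun j : Fin k => (X j : MvPolynomial (Fin k) (ZMod 2)) ^ 4)

theorem coeff_eq_zero_of_mem_I4 {p : MvPolynomial (Fin k) (ZMod 2)} (hp : p ∈ I4 k) :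
    ∀ m : Fin k →₀ ℕ, (∀ j, m j ≤ 3) → coeff m p = 0 := by
  classical
  refine Submodule.span_induction (p := fun p _ => ∀ m : Fin k →₀ ℕ, (∀ j, m j ≤ 3) →
    coeff m p = 0) ?_ ?_ ?_ ?_ hp
  · rintro _ ⟨j, rfl⟩ m hm
    simp only
    rw [X_pow_eq_monomial, coeff_monomial, if_neg]
    rintro rfl
    have := hm j
    simp at this
  · intro m _
    exact coeff_zero m
  · intro p q _ _ hp hq m hm
    rw [coeff_add, hp m hm, hq m hm, add_zero]
  · intro q p _ hp m hm
    rw [smul_eq_mul, coeff_mul]
    refine Finset.sum_eq_zero fun ab hab => ?_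
    rw [Finset.HasAntidiagonal.mem_antidiagonal] at hab
    rw [hp ab.2, mul_zero]
    intro j
    have h1 := hm j
    rw [← hab, Finsupp.add_apply] at h1
    omega

/-- the top exponent -/
noncomputable def e3 : Fin k →₀ ℕ := nf k (fun _ => 3)

theorem e3_apply (j : Fin k) : e3 k j = 3 := rfl

theorem degree_e3 : (e3 k).degree = 3 * k := by
  rw [Finsupp.degree_eq_sum]
  simp [e3_apply, mul_comm]

theorem sub_top_mem {p : MvPolynomial (Fin k) (ZMod 2)} (hp : p.IsHomogeneous (3 * k)) :
    p - C (coeff (e3 k) p) * monomial (e3 k) 1 ∈ I4 k := by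
  classical
  have key : ∀ m : Fin k →₀ ℕ, m.degree = 3 * k → m ≠ e3 k → ∀ c : ZMod 2,
      monomial m c ∈ I4 k := by
    intro m hm hne c
    obtain ⟨j, hj⟩ : ∃ j, 4 ≤ m j := by
      by_contra hcon
      push Not at hcon
      apply hne
      have h1 : ∑ j, m j = ∑ j : Fin k, 3 := by
        rw [← Finsupp.degree_eq_sum, hm]
        simp [mul_comm]
      have h2 := (Finset.sum_eq_sum_iff_of_le (fun j _ => by have := hcon j; omega)).1 h1
      ext j
      exact h2 j (Finset.mem_univ j)
    have h3 : monomial m c = monomial (m - Finsupp.single j 4) c * X j ^ 4 := by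
      rw [X_pow_eq_monomial, monomial_mul, mul_one]
      congr 1
      rw [tsub_add_cancel_of_le]
      rw [Finsupp.single_le_iff]
      exact hj
    rw [h3]
    exact Ideal.mul_mem_left _ _ (Ideal.subset_span ⟨j, rfl⟩)
  have h4 : p - C (coeff (e3 k) p) * monomial (e3 k) 1 =
      ∑ m ∈ p.support, if m = e3 k then 0 else monomial m (coeff m p) := by
    have hs := p.as_sum
    rw [C_mul_monomial, mul_one]
    by_cases he : e3 k ∈ p.support
    · rw [← Finset.add_sum_erase _ _ he] at hs
      rw [← Finset.add_sum_erase _ (fun m => if m = e3 k then (0 : MvPolynomial (Fin k) (ZMod 2))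
          else monomial m (coeff m p)) he, if_pos rfl, zero_add]
      rw [sub_eq_iff_eq_add']
      refine hs.trans ?_
      congr 1
      refine Finset.sum_congr rfl fun m hm => ?_
      rw [if_neg (Finset.ne_of_mem_erase hm)]
    · rw [notMem_support_iff.1 he, monomial_zero, sub_zero]
      refine hs.trans ?_
      refine Finset.sum_congr rfl fun m hm => ?_
      rw [if_neg]
      rintro rfl
      exact he hm
  rw [h4]
  refine Ideal.sum_mem _ fun m hm => ?_
  split_ifs with h
  · exact Ideal.zero_mem _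
  · refine key m ?_ h _
    rw [Finsupp.degree_eq_weight_one]
    exact hp (mem_support_iff.1 hm)

/-- linear substitution -/
noncomputable def sub (A : Matrix (Fin k) (Fin k) (ZMod 2)) :
    MvPolynomial (Fin k) (ZMod 2) →ₐ[ZMod 2] MvPolynomial (Fin k) (ZMod 2) :=
  aeval fun r => ∑ j, C (A r j) * X j

theorem sub_mem (A : Matrix (Fin k) (Fin k) (ZMod 2)) {p : MvPolynomial (Fin k) (ZMod 2)}
    (hp : p ∈ I4 k) : sub k A p ∈ I4 k := by
  have : I4 k ≤ (I4 k).comap (sub k A) := by
    rw [I4, Ideal.span_le]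
    rintro _ ⟨j, rfl⟩
    simp only [SetLike.mem_coe, Ideal.mem_comap, map_pow]
    rw [sub, aeval_X]
    have h : (∑ i, C (A j i) * X i : MvPolynomial (Fin k) (ZMod 2)) ^ 4 =
        ∑ i, C (A j i) ^ 4 * X i ^ 4 := by
      have := sum_pow_char_pow (p := 2) 2 Finset.univ
        (fun i => (C (A j i) * X i : MvPolynomial (Fin k) (ZMod 2)))
      norm_num at this
      rw [this]
      refine Finset.sum_congr rfl fun i _ => by rw [mul_pow]
    rw [h]
    exact Ideal.sum_mem _ fun i _ => Ideal.mul_mem_left _ _ (Ideal.subset_span ⟨i, rfl⟩)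
  exact this hp

theorem sub_hom (A : Matrix (Fin k) (Fin k) (ZMod 2)) :
    (sub k A (monomial (e3 k) 1)).IsHomogeneous (3 * k) := by
  have h1 : (monomial (e3 k) 1 : MvPolynomial (Fin k) (ZMod 2)) = ∏ j, X j ^ 3 := by
    rw [monomial_eq, map_one, one_mul, Finsupp.prod_fintype _ _ (fun i => pow_zero _)]
    rfl
  rw [h1, map_prod]
  have h2 : (∏ j, sub k A (X j ^ 3)).IsHomogeneous (∑ _j : Fin k, 3) := by
    refine IsHomogeneous.prod _ _ _ fun j _ => ?_
    rw [map_pow, sub, aeval_X]
    have h3 : (∑ i, C (A j i) * X i : MvPolynomial (Fin k) (ZMod 2)).IsHomogeneous 1 := by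
      refine IsHomogeneous.sum _ _ _ fun i _ => ?_
      have := (isHomogeneous_C (Fin k) (A j i)).mul (isHomogeneous_X (ZMod 2) i)
      rwa [zero_add] at this
    have := h3.pow 3
    rwa [one_mul] at this
  have h4 : ∑ _j : Fin k, 3 = 3 * k := by simp [mul_comm]
  rwa [h4] at h2

theorem coeff_sub_eq_one (A B : Matrix (Fin k) (Fin k) (ZMod 2)) (hAB : A * B = 1) :
    coeff (e3 k) (sub k A (monomial (e3 k) 1)) = 1 := by
  set a := coeff (e3 k) (sub k A (monomial (e3 k) 1)) with ha
  set b := coeff (e3 k) (sub k B (monomial (e3 k) 1)) with hb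
  have h1 := sub_mem k B (sub_top_mem k (sub_hom k A))
  have h2 := sub_top_mem k (sub_hom k B)
  have h3 : sub k B (sub k A (monomial (e3 k) 1)) = monomial (e3 k) 1 := by
    have : (sub k B).comp (sub k A) = AlgHom.id _ _ := by
      refine MvPolynomial.algHom_ext fun j => ?_
      rw [AlgHom.comp_apply, AlgHom.id_apply]
      rw [sub, sub, aeval_X, map_sum]
      have : ∀ i, (aeval fun r => ∑ j, C (B r j) * X j) (C (A j i) * X i :
          MvPolynomial (Fin k) (ZMod 2)) = ∑ l, C (A j i * B i l) * X l := by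
        intro i
        rw [map_mul, aeval_C, aeval_X, Finset.mul_sum]
        refine Finset.sum_congr rfl fun l _ => ?_
        rw [← mul_assoc, ← algebraMap_eq, map_mul]
      rw [Finset.sum_congr rfl fun i _ => this i, Finset.sum_comm]
      have h5 : ∀ l, ∑ i, C (A j i * B i l) * (X l : MvPolynomial (Fin k) (ZMod 2)) =
          C ((A * B) j l) * X l := by
        intro l
        rw [← Finset.sum_mul, ← map_sum, Matrix.mul_apply]
      rw [Finset.sum_congr rfl fun l _ => h5 l, hAB]
      rw [Finset.sum_eq_single j]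
      · rw [Matrix.one_apply_eq, map_one, one_mul]
      · intro l _ hl
        rw [Matrix.one_apply_ne (Ne.symm hl), map_zero, zero_mul]
      · intro h
        exact absurd (Finset.mem_univ j) h
    exact DFunLike.congr_fun this _
  rw [map_sub, map_mul, h3, ← ha] at h1
  have h6 : (sub k B) (C a) = C a := by
    rw [sub, aeval_C]
    rfl
  rw [h6] at h1
  have h7 : (monomial (e3 k) 1 : MvPolynomial (Fin k) (ZMod 2)) -
      C a * (C b * monomial (e3 k) 1) ∈ I4 k := by
    have h8 := Ideal.mul_mem_left _ (C a) h2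
    rw [← hb, mul_sub] at h8
    have := Ideal.add_mem _ h1 h8
    rwa [sub_add_sub_cancel] at this
  have h9 := coeff_eq_zero_of_mem_I4 k h7 (e3 k) (fun j => le_rfl)
  rw [coeff_sub, coeff_C_mul, coeff_C_mul, coeff_monomial, if_pos rfl, mul_one, sub_eq_zero] at h9
  generalize a = a' at h9 ⊢
  generalize b = b' at h9
  revert a' b'
  decide

end

/-- The count needed in the Borsuk-Ulam theorem. -/
theorem cnt_eq_one (k : ℕ) (A B : Matrix (Fin k) (Fin k) (ZMod 2)) (hAB : A * B = 1)
    (χ : Fin k × Fin 3 → ℕ → ZMod 2) (hχ : ∀ r j, χ r (j : Fin k) = A r.1 j) :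
    Helper20.Glimm.cnt k ((Finset.univ : Finset (Fin k × Fin 3)).toList.map χ)
      (fun _ => 3) = 1 := by
  rw [cnt_eq_coeff, ← coeff_sub_eq_one k A B hAB]
  change coeff (e3 k) _ = _
  congr 1
  rw [List.map_map, Finset.prod_map_toList, Fintype.prod_prod_type]
  have h1 : (monomial (e3 k) 1 : MvPolynomial (Fin k) (ZMod 2)) = ∏ j, X j ^ 3 := by
    rw [monomial_eq, map_one, one_mul, Finsupp.prod_fintype _ _ (fun i => pow_zero _)]
    rfl
  rw [h1, map_prod]
  refine Finset.prod_congr rfl fun r _ => ?_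
  have h2 : ∀ c : Fin 3, (lin k ∘ χ) (r, c) = ∑ j, C (A r j) * X j := by
    intro c
    simp only [Function.comp, lin]
    refine Finset.sum_congr rfl fun j _ => ?_
    rw [hχ]
  rw [Finset.prod_congr rfl fun c _ => h2 c, Finset.prod_const, map_pow, sub, aeval_X]
  rfl

end Pool.Agent.Helper26.LC
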