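import Mathlib
import Pool.Agent.Helper20.Glimm.Sphere
import Pool.Agent.Helper26.LC.Poly

/-!
# Solving square systems of equations over the unit quaternions

If `W r`, `r ∈ R`, are continuous maps `Q ^ U → Q` which change sign according to an invertible
matrix modulo two, then `W r = 1` for all `r` has a solution.
-/

set_option autoImplicit false

namespace Pool.Agent.Helper26.LC

open Quaternion Finset Function Pool.Agent.Helper20.Glimm

/-- The unit quaternions. -/
abbrev Q : Type := Metric.sphere (0 : ℍ[ℝ]) 1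

noncomputable instance Q.instGroup : Group Q := inferInstance

noncomputable instance Q.instMul : Mul Q := Q.instGroup.toMul

noncomputable instance Q.instDN : HasDistribNeg Q := inferInstance

theorem Q.inv_neg' (a : Q) : (-a)⁻¹ = -(a⁻¹) := by
  refine inv_eq_of_mul_eq_one_right ?_
  rw [neg_mul_neg, mul_inv_cancel]

theorem Q.norm_one (a : Q) : ‖(a : ℍ[ℝ])‖ = 1 := by simp

theorem Q.sq (a : Q) : (a : ℍ[ℝ]).re ^ 2 + (a : ℍ[ℝ]).imI ^ 2 + (a : ℍ[ℝ]).imJ ^ 2 +
    (a : ℍ[ℝ]).imK ^ 2 = 1 := by
  have h2 : Quaternion.normSq (a : ℍ[ℝ]) = 1 := by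
    rw [Quaternion.normSq_eq_norm_mul_self, Q.norm_one, one_mul]
  exact (Quaternion.normSq_def' (a : ℍ[ℝ])).symm.trans h2

theorem Q.eq_of_im {a : Q} (hi : (a : ℍ[ℝ]).imI = 0) (hj : (a : ℍ[ℝ]).imJ = 0)
    (hk : (a : ℍ[ℝ]).imK = 0) : a = 1 ∨ a = -1 := by
  have h := Q.sq a
  rw [hi, hj, hk] at h
  have h2 : (a : ℍ[ℝ]).re * (a : ℍ[ℝ]).re = 1 := by linarith
  rcases mul_self_eq_one_iff.1 h2 with h3 | h3
  · left
    refine Subtype.ext (Quaternion.ext _ _ ?_ ?_ ?_ ?_)
    · rw [h3]; rfl
    · rw [hi]; rfl
    · rw [hj]; rfl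
    · rw [hk]; rfl
  · right
    refine Subtype.ext (Quaternion.ext _ _ ?_ ?_ ?_ ?_)
    · rw [h3]; rfl
    · rw [hi]; exact neg_zero.symm
    · rw [hj]; exact neg_zero.symm
    · rw [hk]; exact neg_zero.symm

theorem Q.neg_ne (a : Q) : -a ≠ a := by
  intro h
  have h1 : -(a : ℍ[ℝ]) = (a : ℍ[ℝ]) := congrArg Subtype.val h
  have h2 : (a : ℍ[ℝ]) = 0 := by
    have h3 : (2 : ℝ) • (a : ℍ[ℝ]) = 0 := by
      rw [two_smul]
      nth_rewrite 1 [← h1]
      exact neg_add_cancel _
    exact (smul_eq_zero.1 h3).resolve_left two_ne_zero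
  have h3 := Q.norm_one a
  rw [h2, norm_zero] at h3
  exact zero_ne_one h3

/-- the block as a quaternion -/
noncomputable def bq (y : Y (fun _ => 3)) (j : ℕ) : ℍ[ℝ] :=
  ⟨y.1 (j, 0), y.1 (j, 1), y.1 (j, 2), y.1 (j, 3)⟩

theorem bq_ne (y : Y (fun _ => 3)) (j : ℕ) : bq y j ≠ 0 := by
  intro h
  obtain ⟨-, ⟨i, hi, h1⟩, -⟩ := y.2 j
  have h0 : y.1 (j, 0) = 0 := congrArg QuaternionAlgebra.re h
  have h1' : y.1 (j, 1) = 0 := congrArg QuaternionAlgebra.imI h
  have h2 : y.1 (j, 2) = 0 := congrArg QuaternionAlgebra.imJ h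
  have h3 : y.1 (j, 3) = 0 := congrArg QuaternionAlgebra.imK h
  have h4 : y.1 (j, i) = 0 := by
    interval_cases i
    · exact h0
    · exact h1'
    · exact h2
    · exact h3
  rw [h4, abs_zero] at h1
  exact zero_ne_one h1

theorem continuous_bq (j : ℕ) : Continuous (fun y => bq y j) := by
  have hc : ∀ i, Continuous (fun y : Y (fun _ => 3) => y.1 (j, i)) := fun i =>
    (continuous_apply (j, i)).comp continuous_subtype_val
  have h1 : (fun y => bq y j) = fun y : Y (fun _ => 3) =>
      Quaternion.linearIsometryEquivTuple.symm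
        (WithLp.toLp 2 ![y.1 (j, 0), y.1 (j, 1), y.1 (j, 2), y.1 (j, 3)]) := by
    funext y
    refine Quaternion.ext _ _ ?_ ?_ ?_ ?_ <;> rfl
  rw [h1]
  refine (LinearIsometryEquiv.continuous _).comp ?_
  refine (PiLp.continuous_toLp 2 _).comp ?_
  refine continuous_pi fun i => ?_
  fin_cases i
  · exact hc 0
  · exact hc 1
  · exact hc 2
  · exact hc 3

/-- the block as a unit quaternion -/
noncomputable def uq (y : Y (fun _ => 3)) (j : ℕ) : Q :=
  ⟨‖bq y j‖⁻¹ • bq y j, by
    rw [mem_sphere_zero_iff_norm, norm_smul, norm_inv, norm_norm,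
      inv_mul_cancel₀ (norm_ne_zero_iff.2 (bq_ne y j))]⟩

theorem continuous_uq (j : ℕ) : Continuous (fun y => uq y j) := by
  have h : Continuous (fun y => (‖bq y j‖⁻¹ : ℝ) • bq y j) :=
    ((continuous_bq j).norm.inv₀ fun y => norm_ne_zero_iff.2 (bq_ne y j)).smul (continuous_bq j)
  exact h.subtype_mk _

theorem bq_flip_self (j : ℕ) (y : Y (fun _ => 3)) : bq (flipY j y) j = - bq y j := by
  refine Quaternion.ext _ _ ?_ ?_ ?_ ?_ <;> exact if_pos rfl

theorem bq_flip_ne {i j : ℕ} (h : i ≠ j) (y : Y (fun _ => 3)) : bq (flipY j y) i = bq y i := by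
  refine Quaternion.ext _ _ ?_ ?_ ?_ ?_ <;> exact if_neg h

theorem uq_flip_self (j : ℕ) (y : Y (fun _ => 3)) : uq (flipY j y) j = - uq y j := by
  refine Subtype.ext ?_
  change ‖bq (flipY j y) j‖⁻¹ • bq (flipY j y) j = -(‖bq y j‖⁻¹ • bq y j)
  rw [bq_flip_self, norm_neg, smul_neg]

theorem uq_flip_ne {i j : ℕ} (h : i ≠ j) (y : Y (fun _ => 3)) : uq (flipY j y) i = uq y i := by
  refine Subtype.ext ?_
  change ‖bq (flipY j y) i‖⁻¹ • bq (flipY j y) i = (‖bq y i‖⁻¹ • bq y i)
  rw [bq_flip_ne h]

/-- imaginary components -/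
def im (c : Fin 3) (a : ℍ[ℝ]) : ℝ := ![a.imI, a.imJ, a.imK] c

theorem im_neg (c : Fin 3) (a : ℍ[ℝ]) : im c (-a) = - im c a := by
  fin_cases c <;> rfl

theorem continuous_im (c : Fin 3) : Continuous (im c) := by
  fin_cases c
  · exact Quaternion.continuous_imI
  · exact Quaternion.continuous_imJ
  · exact Quaternion.continuous_imK

theorem gr_fin (k : ℕ) (A B : Matrix (Fin k) (Fin k) (ZMod 2)) (hAB : A * B = 1)
    (W : Fin k → (Fin k → Q) → Q) (hW : ∀ r, Continuous (W r))
    (hflip : ∀ r x e, W r (update x e (-(x e))) = if A r e = 0 then W r x else -(W r x)) :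
    ∃ x, ∀ r, W r x = 1 ∨ W r x = -1 := by
  let X : Y (fun _ => 3) → Fin k → Q := fun y e => uq y e
  have hX : Continuous X := continuous_pi fun e => continuous_uq e
  let f : Fin k × Fin 3 → Y (fun _ => 3) → ℝ := fun rc y => im rc.2 (W rc.1 (X y) : ℍ[ℝ])
  have hf : ∀ rc, Continuous (f rc) := fun rc =>
    (continuous_im rc.2).comp (continuous_subtype_val.comp ((hW rc.1).comp hX))
  let χ : Fin k × Fin 3 → ℕ → ZMod 2 := fun rc j => if h : j < k then A rc.1 ⟨j, h⟩ else 0
  have hXf : ∀ (j : ℕ) (y) (h : j < k), X (flipY j y) = update (X y) ⟨j, h⟩ (-(X y ⟨j, h⟩)) := by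
    intro j y h
    funext e
    by_cases he : e = ⟨j, h⟩
    · subst he
      rw [update_self]
      exact uq_flip_self j y
    · rw [update_of_ne he]
      refine uq_flip_ne (fun h2 => he (Fin.ext h2)) y
  have hXf' : ∀ (j : ℕ) (y) (h : ¬ j < k), X (flipY j y) = X y := by
    intro j y h
    funext e
    refine uq_flip_ne (fun h2 => h ?_) y
    rw [← h2]
    exact e.2
  obtain ⟨y, hy⟩ := borsukUlam k f hf χ (by
    intro rc j y
    simp only [f, χ]
    by_cases h : j < k
    · rw [dif_pos h, hXf j y h, hflip]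
      split_ifs
      · rfl
      · exact im_neg _ _
    · rw [dif_neg h, if_pos rfl, hXf' j y h]) (Finset.univ : Finset (Fin k × Fin 3)).toList
    (cnt_eq_one k A B hAB χ (by
      intro r j
      simp only [χ]
      rw [dif_pos j.2]))
  refine ⟨X y, fun r => ?_⟩
  have h := fun c => hy (r, c) (Finset.mem_toList.2 (Finset.mem_univ _))
  exact Q.eq_of_im (h 0) (h 1) (h 2)

/-- Square systems with an invertible matrix of signs are solvable. -/
theorem gr {U R : Type*} [Fintype U] [Fintype R] [DecidableEq U]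
    (A : R → U → ZMod 2)
    (hA : Bijective (fun (c : U → ZMod 2) (r : R) => ∑ e, A r e * c e))
    (W : R → (U → Q) → Q) (hW : ∀ r, Continuous (W r))
    (hflip : ∀ r x e, W r (update x e (-(x e))) = if A r e = 0 then W r x else -(W r x)) :
    ∃ x, ∀ r, W r x = 1 := by
  classical
  have hcard : Fintype.card U = Fintype.card R := by
    have h := Fintype.card_congr (Equiv.ofBijective _ hA)
    rw [Fintype.card_fun, Fintype.card_fun] at h
    exact Nat.pow_right_injective (by rw [ZMod.card]) h
  obtain ⟨x, hx⟩ : ∃ x, ∀ r, W r x = 1 ∨ W r x = -1 := by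
    let k := Fintype.card U
    let eU : U ≃ Fin k := Fintype.equivFin U
    let eR : R ≃ Fin k := Fintype.equivFinOfCardEq hcard.symm
    let A' : Matrix (Fin k) (Fin k) (ZMod 2) := Matrix.of fun r e => A (eR.symm r) (eU.symm e)
    have hsurj : Surjective A'.mulVec := by
      intro s
      obtain ⟨c, hc⟩ := hA.2 (fun r => s (eR r))
      refine ⟨fun e => c (eU.symm e), ?_⟩
      funext r
      have h1 := congrFun hc (eR.symm r)
      simp only [Equiv.apply_symm_apply] at h1
      rw [← h1]
      simp only [Matrix.mulVec, dotProduct]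
      exact Equiv.sum_comp eU.symm (fun e => A (eR.symm r) e * c e)
    obtain ⟨B, hB⟩ := Matrix.mulVec_surjective_iff_exists_right_inverse.1 hsurj
    obtain ⟨x, hx⟩ := gr_fin k A' B hB (fun r x => W (eR.symm r) (fun u => x (eU u)))
      (fun r => (hW _).comp (continuous_pi fun u => continuous_apply _)) (by
        intro r x e
        have h2 : (fun u => update x e (-(x e)) (eU u)) =
            update (fun u => x (eU u)) (eU.symm e) (-((fun u => x (eU u)) (eU.symm e))) := by
          funext u
          by_cases hu : u = eU.symm e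
          · subst hu
            simp
          · rw [update_of_ne hu, update_of_ne]
            intro h
            exact hu (by rw [← h, Equiv.symm_apply_apply])
        rw [h2, hflip]
        rfl)
    exact ⟨fun u => x (eU u), fun r => by
      have := hx (eR r)
      simpa using this⟩
  -- correct the signs
  obtain ⟨c, hc⟩ := hA.2 (fun r => if W r x = 1 then 0 else 1)
  have key : ∀ S : Finset U, ∀ r, W r (fun e => if e ∈ S ∧ c e = 1 then -(x e) else x e) =
      if ∑ e ∈ S, A r e * c e = 0 then W r x else -(W r x) := by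
    intro S
    induction S using Finset.induction_on with
    | empty =>
      intro r
      simp
    | insert a S ha ih =>
      intro r
      rw [Finset.sum_insert ha]
      have h01 : ∀ v : ZMod 2, v = 0 ∨ v = 1 := by decide
      rcases h01 (c a) with h0 | h1
      · rw [h0, mul_zero, zero_add, ← ih r]
        congr 1
        funext e
        by_cases he : e = a
        · subst he
          rw [if_neg, if_neg]
          · rintro ⟨-, h⟩
            rw [h0] at h
            exact absurd h (by decide)
          · rintro ⟨-, h⟩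
            rw [h0] at h
            exact absurd h (by decide)
        · simp only [Finset.mem_insert, he, false_or]
      · have h2 : (fun e => if e ∈ insert a S ∧ c e = 1 then -(x e) else x e) =
            update (fun e => if e ∈ S ∧ c e = 1 then -(x e) else x e) a
              (-((fun e => if e ∈ S ∧ c e = 1 then -(x e) else x e) a)) := by
          funext e
          by_cases he : e = a
          · subst he
            rw [update_self]
            simp [h1, ha]
          · rw [update_of_ne he]
            simp only [Finset.mem_insert, he, false_or]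
        rw [h2, hflip, ih, h1, mul_one]
        generalize A r a = α
        generalize ∑ e ∈ S, A r e * c e = β
        rcases h01 α with rfl | rfl <;> rcases h01 β with rfl | rfl
        · simp
        · simp
        · simp
        · rw [if_neg (by decide), if_neg (by decide), if_pos (by decide), neg_neg]
  refine ⟨fun e => if e ∈ (Finset.univ : Finset U) ∧ c e = 1 then -(x e) else x e, fun r => ?_⟩
  rw [key]
  have h := congrFun hc r
  simp only at h
  rw [h]
  rcases hx r with h1 | h1
  · rw [if_pos h1, if_pos rfl, h1]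
  · have h2 : ¬ W r x = 1 := by
      rw [h1]
      exact Q.neg_ne 1
    rw [if_neg h2, if_neg one_ne_zero, h1, neg_neg]

end Pool.Agent.Helper26.LC
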