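import Mathlib
import Pool.Agent.Helper26.LC.GR

/-!
# The fundamental group of the Brieskorn sphere `Σ(2,5,7)`
-/

set_option autoImplicit false

namespace Pool.Agent.Helper26.LC

open Quaternion

/-- The relations `x² = h`, `y⁵ = h`, `z⁷ = h²`, `xyz = h`, `h` central, for the generators
`x = 0`, `y = 1`, `z = 2`, `h = 3`. -/
def rels257 : Set (FreeGroup (Fin 4)) :=
  let x := FreeGroup.of (0 : Fin 4)
  let y := FreeGroup.of (1 : Fin 4)
  let z := FreeGroup.of (2 : Fin 4)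
  let h := FreeGroup.of (3 : Fin 4)
  {x ^ 2 * h⁻¹, y ^ 5 * h⁻¹, z ^ 7 * (h ^ 2)⁻¹, x * y * z * h⁻¹,
    x * h * x⁻¹ * h⁻¹, y * h * y⁻¹ * h⁻¹, z * h * z⁻¹ * h⁻¹}

/-- The fundamental group of the Brieskorn sphere `Σ(2,5,7)`, the boundary of Mazur's manifold. -/
abbrev Gamma257 : Type := PresentedGroup rels257

theorem rel_apply {G : Type*} [Group G] (θ : Gamma257 →* G) {r : FreeGroup (Fin 4)}
    (hr : r ∈ rels257) :
    FreeGroup.lift (fun i => θ (PresentedGroup.of i)) r = 1 := by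
  have h1 : FreeGroup.lift (fun i => θ (PresentedGroup.of i)) = θ.comp (PresentedGroup.mk rels257) := by
    ext i
    simp [PresentedGroup.of]
  rw [h1, MonoidHom.comp_apply]
  have h2 : PresentedGroup.mk rels257 r = 1 := by
    rw [PresentedGroup.mk_eq_one_iff]
    exact Subgroup.subset_normalClosure hr
  rw [h2, map_one]

theorem gamma_perfect (θ : Gamma257 →* Multiplicative (ZMod 2)) : θ = 1 := by
  have h1 := rel_apply θ (r := FreeGroup.of (0 : Fin 4) ^ 2 * (FreeGroup.of (3 : Fin 4))⁻¹)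
    (by simp [rels257])
  have h2 := rel_apply θ (r := FreeGroup.of (1 : Fin 4) ^ 5 * (FreeGroup.of (3 : Fin 4))⁻¹)
    (by simp [rels257])
  have h3 := rel_apply θ (r := FreeGroup.of (2 : Fin 4) ^ 7 * (FreeGroup.of (3 : Fin 4) ^ 2)⁻¹)
    (by simp [rels257])
  have h4 := rel_apply θ (r := FreeGroup.of (0 : Fin 4) * FreeGroup.of (1 : Fin 4) *
    FreeGroup.of (2 : Fin 4) * (FreeGroup.of (3 : Fin 4))⁻¹) (by simp [rels257])
  simp only [map_mul, map_pow, map_inv, FreeGroup.lift_apply_of] at h1 h2 h3 h4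
  have key : ∀ a b c h : Multiplicative (ZMod 2), a ^ 2 * h⁻¹ = 1 → b ^ 5 * h⁻¹ = 1 →
      c ^ 7 * (h ^ 2)⁻¹ = 1 → a * b * c * h⁻¹ = 1 → a = 1 ∧ b = 1 ∧ c = 1 ∧ h = 1 := by
    decide
  obtain ⟨ha, hb, hc, hh⟩ := key _ _ _ _ h1 h2 h3 h4
  refine PresentedGroup.ext fun i => ?_
  fin_cases i
  · exact ha
  · exact hb
  · exact hc
  · exact hh

/-- de Moivre -/
theorem deMoivre {q : ℍ[ℝ]} {θ : ℝ} (hq : Quaternion.normSq q = 1) (hre : q.re = Real.cos θ)
    (hs : Real.sin θ ≠ 0) (n : ℕ) (hn : Complex.exp ((θ * Complex.I) * n) = -1) : q ^ n = -1 := by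
  set u : ℍ[ℝ] := (Real.sin θ)⁻¹ • (q - (Real.cos θ : ℍ[ℝ])) with hu
  have hv : (q - (Real.cos θ : ℍ[ℝ])) * (q - (Real.cos θ : ℍ[ℝ])) =
      ((-(Real.sin θ ^ 2) : ℝ) : ℍ[ℝ]) := by
    rw [Quaternion.normSq_def'] at hq
    have hsc := Real.sin_sq_add_cos_sq θ
    obtain ⟨s, hs'⟩ : ∃ s : ℝ, s = -(Real.sin θ ^ 2) := ⟨_, rfl⟩
    rw [← hs']
    refine Quaternion.ext _ _ ?_ ?_ ?_ ?_
    · simp [hre]
      rw [hre] at hq
      nlinarith
    · simp [hre]; ring
    · simp [hre]; ring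
    · simp [hre]; ring
  have huu : u * u = -1 := by
    rw [hu, smul_mul_smul_comm, hv, ← Quaternion.coe_smul, smul_eq_mul]
    have h1 : (Real.sin θ)⁻¹ * (Real.sin θ)⁻¹ * -(Real.sin θ ^ 2) = -1 := by
      field_simp
    rw [h1]
    simp
  let φ : ℂ →ₐ[ℝ] ℍ[ℝ] := Complex.liftAux u huu
  have h1 : φ (Complex.exp (θ * Complex.I)) = q := by
    rw [Complex.liftAux_apply]
    rw [Complex.exp_ofReal_mul_I_re, Complex.exp_ofReal_mul_I_im, hu, smul_smul,
      mul_inv_cancel₀ hs, one_smul]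
    exact add_sub_cancel _ _
  rw [← h1, ← map_pow, ← Complex.exp_nat_mul, mul_comm, hn, map_neg, map_one]

/-- Generators of a representation of the group. -/
theorem exists_xy : ∃ X Y : Q, X ≠ 1 ∧ X ^ 2 = -1 ∧ Y ^ 5 = -1 ∧ (X * Y) ^ 7 = -1 := by
  have hs5 : 0 < Real.sin (Real.pi / 5) :=
    Real.sin_pos_of_pos_of_lt_pi (by positivity) (by linarith [Real.pi_pos])
  have hc7 : 0 < Real.cos (3 * Real.pi / 7) :=
    Real.cos_pos_of_mem_Ioo ⟨by linarith [Real.pi_pos], by linarith [Real.pi_pos]⟩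
  have hlt : Real.cos (3 * Real.pi / 7) < Real.sin (Real.pi / 5) := by
    rw [← Real.cos_pi_div_two_sub]
    exact Real.cos_lt_cos_of_nonneg_of_le_pi (by linarith [Real.pi_pos]) (by linarith [Real.pi_pos])
      (by linarith [Real.pi_pos])
  set a : ℝ := Real.cos (3 * Real.pi / 7) / Real.sin (Real.pi / 5) with ha
  have ha1 : a ^ 2 ≤ 1 := by
    have h1 : a ≤ 1 := (div_le_one hs5).2 hlt.le
    have h2 : 0 ≤ a := by positivity
    nlinarith
  set b : ℝ := Real.sqrt (1 - a ^ 2) with hb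
  have hb2 : b ^ 2 = 1 - a ^ 2 := Real.sq_sqrt (by linarith)
  set s := Real.sin (Real.pi / 5) with hs
  set c := Real.cos (Real.pi / 5) with hc
  have hsc : s ^ 2 + c ^ 2 = 1 := Real.sin_sq_add_cos_sq _
  have has : a * s = Real.cos (3 * Real.pi / 7) := div_mul_cancel₀ _ hs5.ne'
  let X' : ℍ[ℝ] := ⟨0, 1, 0, 0⟩
  let Y' : ℍ[ℝ] := ⟨c, -(s * a), s * b, 0⟩
  have hX : Quaternion.normSq X' = 1 := by
    rw [Quaternion.normSq_def']
    simp [X']
  have hY : Quaternion.normSq Y' = 1 := by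
    rw [Quaternion.normSq_def']
    simp only [Y']
    nlinarith
  have hXY : Quaternion.normSq (X' * Y') = 1 := by rw [map_mul, hX, hY, one_mul]
  have hX2 : X' ^ 2 = -1 := by
    rw [sq]
    refine Quaternion.ext _ _ ?_ ?_ ?_ ?_
    · rw [Quaternion.re_mul]
      simp [X']
    · rw [Quaternion.imI_mul]
      simp [X']
    · rw [Quaternion.imJ_mul]
      simp [X']
    · rw [Quaternion.imK_mul]
      simp [X']
  have hY5 : Y' ^ 5 = -1 := by
    refine deMoivre hY (θ := Real.pi / 5) rfl hs5.ne' 5 ?_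
    have h1 : ((Real.pi / 5 : ℝ) : ℂ) * Complex.I * (5 : ℕ) = Real.pi * Complex.I := by
      push_cast
      ring
    rw [h1, Complex.exp_pi_mul_I]
  have hXY7 : (X' * Y') ^ 7 = -1 := by
    refine deMoivre hXY (θ := 3 * Real.pi / 7) ?_ ?_ 7 ?_
    · rw [← has, Quaternion.re_mul]
      simp only [X', Y']
      ring
    · exact (Real.sin_pos_of_pos_of_lt_pi (by positivity) (by linarith [Real.pi_pos])).ne'
    · have h1 : ((3 * Real.pi / 7 : ℝ) : ℂ) * Complex.I * (7 : ℕ) =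
          Real.pi * Complex.I + 2 * Real.pi * Complex.I := by
        push_cast
        ring
      rw [h1, Complex.exp_add, Complex.exp_pi_mul_I, Complex.exp_two_pi_mul_I, mul_one]
  have hn : ∀ q : ℍ[ℝ], Quaternion.normSq q = 1 → q ∈ Metric.sphere (0 : ℍ[ℝ]) 1 := by
    intro q hq
    rw [mem_sphere_zero_iff_norm]
    rw [Quaternion.normSq_eq_norm_mul_self] at hq
    nlinarith [norm_nonneg q, mul_self_eq_one_iff.1 hq]
  refine ⟨⟨X', hn X' hX⟩, ⟨Y', hn Y' hY⟩, ?_, Subtype.ext hX2, Subtype.ext hY5,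
    Subtype.ext hXY7⟩
  intro h2
  have h3 := congrArg (fun q : Q => (q : ℍ[ℝ]).re) h2
  simp only [X'] at h3
  exact zero_ne_one h3

/-- A nontrivial homomorphism to the unit quaternions. -/
theorem gamma_hom : ∃ θ : Gamma257 →* Q, θ ≠ 1 := by
  obtain ⟨X, Y, hX1, hX2', hY5', hXY7'⟩ := exists_xy
  let φ : Fin 4 → Q := ![X, Y, -(X * Y)⁻¹, -1]
  have hcomm : ∀ q : Q, q * (-1) * q⁻¹ * (-1)⁻¹ = 1 := by
    intro q
    rw [mul_neg, mul_one, neg_mul, mul_inv_cancel, mul_inv_cancel]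
  have hrel : ∀ r ∈ rels257, FreeGroup.lift φ r = 1 := by
    intro r hr
    simp only [rels257, Set.mem_insert_iff, Set.mem_singleton_iff] at hr
    rcases hr with rfl | rfl | rfl | rfl | rfl | rfl | rfl
    · simp only [map_mul, map_pow, map_inv, FreeGroup.lift_apply_of, φ]
      change X ^ 2 * (-1)⁻¹ = 1
      rw [hX2', mul_inv_cancel]
    · simp only [map_mul, map_pow, map_inv, FreeGroup.lift_apply_of, φ]
      change Y ^ 5 * (-1)⁻¹ = 1
      rw [hY5', mul_inv_cancel]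
    · simp only [map_mul, map_pow, map_inv, FreeGroup.lift_apply_of, φ]
      change (-(X * Y)⁻¹) ^ 7 * ((-1 : Q) ^ 2)⁻¹ = 1
      rw [neg_sq, one_pow, inv_one, mul_one, Odd.neg_pow (by decide), inv_pow, hXY7',
        Q.inv_neg', inv_one, neg_neg]
    · simp only [map_mul, map_inv, FreeGroup.lift_apply_of, φ]
      change X * Y * (-(X * Y)⁻¹) * (-1)⁻¹ = 1
      rw [mul_neg, mul_inv_cancel, mul_inv_cancel]
    · simp only [map_mul, map_inv, FreeGroup.lift_apply_of, φ]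
      exact hcomm X
    · simp only [map_mul, map_inv, FreeGroup.lift_apply_of, φ]
      exact hcomm Y
    · simp only [map_mul, map_inv, FreeGroup.lift_apply_of, φ]
      exact hcomm (-(X * Y)⁻¹)
  refine ⟨PresentedGroup.toGroup hrel, fun h => ?_⟩
  have h1 : PresentedGroup.toGroup hrel (PresentedGroup.of (0 : Fin 4)) = φ 0 :=
    PresentedGroup.toGroup.of hrel
  rw [h, MonoidHom.one_apply] at h1
  have h2 : (1 : Q) = X := h1
  exact hX1 h2.symm

end Pool.Agent.Helper26.LC
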