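import Mathlib

/-!
# Locally constructible complexes: definitions

A finite simplicial complex is given by a finite family `F` of finite sets of vertices; its faces
are the nonempty subsets of the members of `F`.
-/

set_option autoImplicit false

namespace Pool.Agent.Helper26.LC

variable {V : Type*} [DecidableEq V]

/-- In the space obtained from the disjoint union of the simplices by the gluings in `G`, the
copies of the face `s` in the simplices `σ` and `σ'` are the same: there is a chain of simplices
containing `s` in which consecutive simplices have been glued. -/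
def Linked (G : Finset (Sym2 (Finset V))) (s σ σ' : Finset V) : Prop :=
  Relation.ReflTransGen (fun κ κ' => s ⊆ κ ∧ s ⊆ κ' ∧ s(κ, κ') ∈ G) σ σ'

/-- The face `τ` of the simplex `σ` is a simplex of the current boundary: it has not been glued. -/
def FreeFace (G : Finset (Sym2 (Finset V))) (σ τ : Finset V) : Prop :=
  ∀ κ, s(σ, κ) ∈ G → σ ∩ κ ≠ τ

/-- The stages of a local construction by `d`-simplices belonging to the family `F`. `S` is the set
of simplices used so far, `G` the set of pairs of simplices glued so far (two simplices are glued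
along their intersection, a `(d-1)`-simplex) and `L` records the second phase: for each step the
glued `(d-1)`-simplex and the `(d-2)`-simplex shared before the gluing. In the first phase (`L`
empty) new simplices are attached along simplices of the boundary, which gives a tree of
simplices. -/
inductive Stage (d : ℕ) (F : Finset (Finset V)) :
    Finset (Finset V) → Finset (Sym2 (Finset V)) → List (Finset V × Finset V) → Prop
  | start (σ : Finset V) (h : σ ∈ F) : Stage d F {σ} ∅ []
  | attach (S : Finset (Finset V)) (G : Finset (Sym2 (Finset V))) (σ σ' : Finset V)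
      (h : Stage d F S G []) (hσ : σ ∈ S) (hσ' : σ' ∈ F) (hn : σ' ∉ S)
      (hτ : (σ ∩ σ').card = d) (hf : FreeFace G σ (σ ∩ σ')) :
      Stage d F (insert σ' S) (insert s(σ, σ') G) []
  | glue (S : Finset (Finset V)) (G : Finset (Sym2 (Finset V))) (L : List (Finset V × Finset V))
      (σ σ' ρ : Finset V) (h : Stage d F S G L) (hσ : σ ∈ S) (hσ' : σ' ∈ S) (hne : σ ≠ σ')
      (hτ : (σ ∩ σ').card = d) (hf : FreeFace G σ (σ ∩ σ')) (hf' : FreeFace G σ' (σ ∩ σ'))
      (hρ : ρ ⊆ σ ∩ σ') (hρc : ρ.card + 1 = d) (hl : Linked G ρ σ σ') :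
      Stage d F S (insert s(σ, σ') G) ((σ ∩ σ', ρ) :: L)

/-- The complex with facets `F` is locally constructible: its facets are `d`-simplices, all of
them are used, and in the end all copies of every face have been identified (so that the result
of the construction is the complex). -/
def IsLC (d : ℕ) (F : Finset (Finset V)) : Prop :=
  (∀ σ ∈ F, σ.card = d + 1) ∧ ∃ G L, Stage d F F G L ∧
    ∀ s : Finset V, s.Nonempty → ∀ σ ∈ F, ∀ σ' ∈ F, s ⊆ σ → s ⊆ σ' → Linked G s σ σ'

open Classical in
/-- The boundary simplices: the sets with `d` elements lying in exactly one member of `F`. -/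
noncomputable def bd (d : ℕ) (F : Finset (Finset V)) : Finset (Finset V) :=
  (F.biUnion fun σ => σ.powersetCard d).filter fun τ => ∃! σ, σ ∈ F ∧ τ ⊆ σ

/-- The underlying space of the complex generated by `F`. -/
def Space [Fintype V] (F : Finset (Finset V)) : Set (V → ℝ) :=
  {p | (∀ v, 0 ≤ p v) ∧ ∑ v, p v = 1 ∧ ∃ σ ∈ F, ∀ v, p v ≠ 0 → v ∈ σ}

/-- A labelling of the pairs of vertices by elements of a group, flat on the members of `F`. -/
def Flat {Γ : Type*} [Group Γ] (F : Finset (Finset V)) (g : V → V → Γ) : Prop :=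
  ∀ σ ∈ F, ∀ u ∈ σ, ∀ v ∈ σ, ∀ w ∈ σ, g u v * g v w = g u w

/-- A trivial labelling. -/
def Triv {Γ : Type*} [Group Γ] (F : Finset (Finset V)) (g : V → V → Γ) : Prop :=
  ∃ h : V → Γ, ∀ σ ∈ F, ∀ u ∈ σ, ∀ v ∈ σ, g u v = (h u)⁻¹ * h v

/-- Every function which is constant on the simplices is constant on the vertices. -/
def Conn (F : Finset (Finset V)) : Prop :=
  ∀ b : V → ZMod 2, (∀ σ ∈ F, ∀ u ∈ σ, ∀ v ∈ σ, b u = b v) →
    ∀ σ ∈ F, ∀ σ' ∈ F, ∀ u ∈ σ, ∀ v ∈ σ', b u = b v

/-- Vanishing of the second cohomology with coefficients in `ℤ/2`. -/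
def H2Zero (F : Finset (Finset V)) : Prop :=
  ∀ z : Finset V → ZMod 2,
    (∀ σ ∈ F, ∀ τ ∈ σ.powersetCard 4, ∑ t ∈ τ.powersetCard 3, z t = 0) →
    ∃ w : Finset V → ZMod 2, ∀ σ ∈ F, ∀ t ∈ σ.powersetCard 3, z t = ∑ e ∈ t.powersetCard 2, w e

end Pool.Agent.Helper26.LC
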