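import Mathlib
import Pool.Agent.Helper26.LC.Defs

/-!
# Local constructions: the triangles along which the gluing steps are made
-/

set_option autoImplicit false

namespace Pool.Agent.Helper26.LC

variable {V : Type*} [DecidableEq V]

theorem Stage.sub {d : ℕ} {F S : Finset (Finset V)} {G : Finset (Sym2 (Finset V))}
    {L : List (Finset V × Finset V)} (h : Stage d F S G L) : S ⊆ F := by
  induction h with
  | start σ h => exact Finset.singleton_subset_iff.2 h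
  | attach S G σ σ' h hσ hσ' hn hτ hf ih => exact Finset.insert_subset hσ' ih
  | glue S G L σ σ' ρ h hσ hσ' hne hτ hf hf' hρ hρc hl ih => exact ih

theorem Stage.pair {d : ℕ} {F S : Finset (Finset V)} {G : Finset (Sym2 (Finset V))}
    {L : List (Finset V × Finset V)} (h : Stage d F S G L) :
    ∀ κ κ', s(κ, κ') ∈ G → κ ∈ S ∧ κ' ∈ S ∧ κ ≠ κ' ∧ (κ ∩ κ').card = d := by
  induction h with
  | start σ h => intro κ κ' h; exact absurd h (Finset.notMem_empty _)
  | attach S G σ σ' h hσ hσ' hn hτ hf ih =>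
    intro κ κ' hk
    rcases Finset.mem_insert.1 hk with hk | hk
    · have hne : σ ≠ σ' := fun h => hn (h ▸ hσ)
      rcases Sym2.eq_iff.1 hk with ⟨rfl, rfl⟩ | ⟨rfl, rfl⟩
      · exact ⟨Finset.mem_insert_of_mem hσ, Finset.mem_insert_self _ _, hne, hτ⟩
      · exact ⟨Finset.mem_insert_self _ _, Finset.mem_insert_of_mem hσ, hne.symm,
          by rw [Finset.inter_comm]; exact hτ⟩
    · obtain ⟨h1, h2, h3, h4⟩ := ih κ κ' hk
      exact ⟨Finset.mem_insert_of_mem h1, Finset.mem_insert_of_mem h2, h3, h4⟩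
  | glue S G L σ σ' ρ h hσ hσ' hne hτ hf hf' hρ hρc hl ih =>
    intro κ κ' hk
    rcases Finset.mem_insert.1 hk with hk | hk
    · rcases Sym2.eq_iff.1 hk with ⟨rfl, rfl⟩ | ⟨rfl, rfl⟩
      · exact ⟨hσ, hσ', hne, hτ⟩
      · exact ⟨hσ', hσ, hne.symm, by rw [Finset.inter_comm]; exact hτ⟩
    · exact ih κ κ' hk

theorem Stage.matching {d : ℕ} {F S : Finset (Finset V)} {G : Finset (Sym2 (Finset V))}
    {L : List (Finset V × Finset V)} (h : Stage d F S G L) :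
    ∀ κ κ₁ κ₂, s(κ, κ₁) ∈ G → s(κ, κ₂) ∈ G → κ ∩ κ₁ = κ ∩ κ₂ → κ₁ = κ₂ := by
  induction h with
  | start σ h => intro κ κ₁ κ₂ h; exact absurd h (Finset.notMem_empty _)
  | attach S G σ σ' h hσ hσ' hn hτ hf ih =>
    have hno : ∀ κ, s(σ', κ) ∉ G := fun κ hk => hn (h.pair _ _ hk).1
    intro κ κ₁ κ₂ h1' h2' h12
    rcases Finset.mem_insert.1 h1' with h1 | h1
    · rcases Finset.mem_insert.1 h2' with h2 | h2
      · exact Sym2.congr_right.1 (h1.trans h2.symm)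
      · rcases Sym2.eq_iff.1 h1 with ⟨rfl, rfl⟩ | ⟨rfl, rfl⟩
        · exact absurd h12.symm (hf κ₂ h2)
        · exact absurd h2 (hno κ₂)
    · rcases Finset.mem_insert.1 h2' with h2 | h2
      · rcases Sym2.eq_iff.1 h2 with ⟨rfl, rfl⟩ | ⟨rfl, rfl⟩
        · exact absurd h12 (hf κ₁ h1)
        · exact absurd h1 (hno κ₁)
      · exact ih κ κ₁ κ₂ h1 h2 h12
  | glue S G L σ σ' ρ h hσ hσ' hne hτ hf hf' hρ hρc hl ih =>
    intro κ κ₁ κ₂ h1' h2' h12
    rcases Finset.mem_insert.1 h1' with h1 | h1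
    · rcases Finset.mem_insert.1 h2' with h2 | h2
      · exact Sym2.congr_right.1 (h1.trans h2.symm)
      · rcases Sym2.eq_iff.1 h1 with ⟨rfl, rfl⟩ | ⟨rfl, rfl⟩
        · exact absurd h12.symm (hf κ₂ h2)
        · exact absurd (h12.symm.trans (Finset.inter_comm _ _)) (hf' κ₂ h2)
    · rcases Finset.mem_insert.1 h2' with h2 | h2
      · rcases Sym2.eq_iff.1 h2 with ⟨rfl, rfl⟩ | ⟨rfl, rfl⟩
        · exact absurd h12 (hf κ₁ h1)
        · exact absurd (h12.trans (Finset.inter_comm _ _)) (hf' κ₁ h1)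
      · exact ih κ κ₁ κ₂ h1 h2 h12

/-- All copies of each face have been identified. -/
def Final (F : Finset (Finset V)) (G : Finset (Sym2 (Finset V))) : Prop :=
  ∀ s : Finset V, s.Nonempty → ∀ σ ∈ F, ∀ σ' ∈ F, s ⊆ σ → s ⊆ σ' → Linked G s σ σ'

theorem linked_ridge {d : ℕ} {F S : Finset (Finset V)} {G : Finset (Sym2 (Finset V))}
    {L : List (Finset V × Finset V)} (h : Stage d F S G L) {τ σ κ : Finset V} (hτ : τ.card = d)
    (hl : Linked G τ σ κ) : κ = σ ∨ (s(σ, κ) ∈ G ∧ σ ∩ κ = τ) := by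
  have key : ∀ a b, τ ⊆ a → τ ⊆ b → s(a, b) ∈ G → a ∩ b = τ := by
    intro a b ha hb hab
    refine (Finset.eq_of_subset_of_card_le (Finset.subset_inter ha hb) ?_).symm
    rw [(h.pair a b hab).2.2.2, hτ]
  induction hl with
  | refl => exact Or.inl rfl
  | @tail b c _ hbc ih =>
    obtain ⟨h1, h2, h3⟩ := hbc
    rcases ih with rfl | ⟨h4, h5⟩
    · exact Or.inr ⟨h3, key _ _ h1 h2 h3⟩
    · left
      refine h.matching b c σ h3 (by rw [Sym2.eq_swap]; exact h4) ?_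
      rw [key _ _ h1 h2 h3, Finset.inter_comm, h5]

theorem free_final {d : ℕ} (hd : 1 ≤ d) {F : Finset (Finset V)} {G : Finset (Sym2 (Finset V))}
    {L : List (Finset V × Finset V)} (h : Stage d F F G L) (hfin : Final F G) {κ τ : Finset V}
    (hκ : κ ∈ F) (hτ : τ.card = d) (hτκ : τ ⊆ κ) (hf : FreeFace G κ τ) : τ ∈ bd d F := by
  classical
  rw [bd, Finset.mem_filter, Finset.mem_biUnion]
  refine ⟨⟨κ, hκ, Finset.mem_powersetCard.2 ⟨hτκ, hτ⟩⟩, κ, ⟨hκ, hτκ⟩, ?_⟩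
  rintro σ ⟨hσ, hτσ⟩
  have hne : τ.Nonempty := by
    rw [← Finset.card_pos]
    omega
  rcases linked_ridge h hτ (hfin τ hne κ hκ σ hσ hτκ hτσ) with h1 | ⟨h1, h2⟩
  · exact h1
  · exact absurd h2 (hf σ h1)

theorem pm_of_stage {d : ℕ} (hd : 1 ≤ d) {F : Finset (Finset V)} {G : Finset (Sym2 (Finset V))}
    {L : List (Finset V × Finset V)} (h : Stage d F F G L) (hfin : Final F G) :
    ∀ τ : Finset V, τ.card = d → ∀ σ₁ ∈ F, ∀ σ₂ ∈ F, ∀ σ₃ ∈ F, τ ⊆ σ₁ → τ ⊆ σ₂ → τ ⊆ σ₃ →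
      σ₁ = σ₂ ∨ σ₁ = σ₃ ∨ σ₂ = σ₃ := by
  intro τ hτ σ₁ h1 σ₂ h2 σ₃ h3 ht1 ht2 ht3
  have hne : τ.Nonempty := by
    rw [← Finset.card_pos]
    omega
  rcases linked_ridge h hτ (hfin τ hne σ₁ h1 σ₂ h2 ht1 ht2) with h4 | ⟨h4, h5⟩
  · exact Or.inl h4.symm
  · rcases linked_ridge h hτ (hfin τ hne σ₁ h1 σ₃ h3 ht1 ht3) with h6 | ⟨h6, h7⟩
    · exact Or.inr (Or.inl h6.symm)
    · exact Or.inr (Or.inr (h.matching σ₁ σ₂ σ₃ h4 h6 (h5.trans h7.symm)))

/-- Every ridge containing `ρ` has been glued, in every facet. -/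
def Full (d : ℕ) (F : Finset (Finset V)) (G : Finset (Sym2 (Finset V))) (ρ : Finset V) : Prop :=
  ∀ κ ∈ F, ∀ t : Finset V, t.card = d → ρ ⊆ t → t ⊆ κ → ∃ κ', s(κ, κ') ∈ G ∧ κ ∩ κ' = t

theorem card_ridges_le {d : ℕ} {κ ρ : Finset V} (hκ : κ.card = d + 1) (hρ : ρ.card + 1 = d)
    (hρκ : ρ ⊆ κ) : ((κ.powersetCard d).filter fun t => ρ ⊆ t).card ≤ 2 := by
  have h1 : (κ.powersetCard d).filter (fun t => ρ ⊆ t) ⊆ (κ \ ρ).image fun a => κ.erase a := by
    intro t ht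
    rw [Finset.mem_filter, Finset.mem_powersetCard] at ht
    obtain ⟨⟨h1, h2⟩, h3⟩ := ht
    have h4 : (κ \ t).card = 1 := by
      rw [Finset.card_sdiff_of_subset h1]
      omega
    obtain ⟨a, ha⟩ := Finset.card_eq_one.1 h4
    have ha' : a ∈ κ \ t := by rw [ha]; exact Finset.mem_singleton_self a
    rw [Finset.mem_sdiff] at ha'
    refine Finset.mem_image.2 ⟨a, Finset.mem_sdiff.2 ⟨ha'.1, fun h => ha'.2 (h3 h)⟩, ?_⟩
    rw [← Finset.sdiff_singleton_eq_erase, ← ha, Finset.sdiff_sdiff_eq_self h1]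
  refine (Finset.card_le_card h1).trans (Finset.card_image_le.trans ?_)
  rw [Finset.card_sdiff_of_subset hρκ]
  omega

omit [DecidableEq V] in
theorem linked_sub {G : Finset (Sym2 (Finset V))} {ρ σ κ : Finset V} (hρ : ρ ⊆ σ)
    (h : Linked G ρ σ κ) : ρ ⊆ κ := by
  rcases Relation.ReflTransGen.cases_tail h with h | ⟨b, _, h⟩
  · rw [h]; exact hρ
  · exact h.2.1

theorem free_unique [Fintype V] {d : ℕ} {F S : Finset (Finset V)} {G : Finset (Sym2 (Finset V))}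
    {L : List (Finset V × Finset V)} (hF : ∀ σ ∈ F, σ.card = d + 1) (h : Stage d F S G L)
    {σ σ' ρ : Finset V} (hσ : σ ∈ S) (hne : σ ≠ σ')
    (hτ : (σ ∩ σ').card = d) (hf : FreeFace G σ (σ ∩ σ')) (hf' : FreeFace G σ' (σ ∩ σ'))
    (hρ : ρ ⊆ σ ∩ σ') (hρc : ρ.card + 1 = d) (hl : Linked G ρ σ σ') (κ : Finset V)
    (hκ : Linked G ρ σ κ) (t : Finset V) (ht : t.card = d) (hρt : ρ ⊆ t) (htκ : t ⊆ κ)
    (hft : FreeFace G κ t) : (κ = σ ∨ κ = σ') ∧ t = σ ∩ σ' := by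
  classical
  have hρσ : ρ ⊆ σ := hρ.trans Finset.inter_subset_left
  let K := {κ : Finset V // Linked G ρ σ κ}
  have hKS : ∀ κ : K, κ.1 ∈ S := by
    rintro ⟨κ, hκ⟩
    rcases Relation.ReflTransGen.cases_tail hκ with h1 | ⟨b, _, h1⟩
    · exact h1 ▸ hσ
    · exact (h.pair _ _ h1.2.2).2.1
  have hKc : ∀ κ : K, κ.1.card = d + 1 := fun κ => hF _ (h.sub (hKS κ))
  have hKρ : ∀ κ : K, ρ ⊆ κ.1 := fun κ => linked_sub hρσ κ.2
  let H : SimpleGraph K :=
    { Adj := fun a b => s(a.1, b.1) ∈ G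
      symm := ⟨fun a b hab => by rw [Sym2.eq_swap]; exact hab⟩
      loopless := ⟨fun a ha => (h.pair _ _ ha).2.2.1 rfl⟩ }
  have hconn : H.Connected := by
    rw [SimpleGraph.connected_iff_exists_forall_reachable]
    refine ⟨⟨σ, Relation.ReflTransGen.refl⟩, ?_⟩
    rintro ⟨κ, hκ⟩
    induction hκ with
    | refl => exact SimpleGraph.Reachable.refl _
    | @tail b c hb hbc ih =>
      refine ih.trans (SimpleGraph.Adj.reachable ?_)
      exact hbc.2.2
  have hcard := hconn.card_vert_le_card_edgeSet_add_one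
  rw [Nat.card_eq_fintype_card, Nat.card_eq_fintype_card, ← SimpleGraph.edgeFinset_card] at hcard
  have hdeg := H.sum_degrees_eq_twice_card_edges
  let Rr : K → Finset (Finset V) := fun κ => (κ.1.powersetCard d).filter fun t => ρ ⊆ t
  let fr : K → Finset (Finset V) := fun κ => (Rr κ).filter fun t => FreeFace G κ.1 t
  have h1 : ∀ κ : K, (fr κ).card + H.degree κ ≤ 2 := by
    intro κ
    have h2 : H.degree κ ≤ ((Rr κ) \ (fr κ)).card := by
      rw [← SimpleGraph.card_neighborFinset_eq_degree]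
      refine Finset.card_le_card_of_injOn (fun κ' => κ.1 ∩ κ'.1) ?_ ?_
      · intro κ' hκ'
        rw [SimpleGraph.coe_neighborFinset, SimpleGraph.mem_neighborSet] at hκ'
        have hκ'' : s(κ.1, κ'.1) ∈ G := hκ'
        rw [Finset.mem_coe, Finset.mem_sdiff, Finset.mem_filter, Finset.mem_filter,
          Finset.mem_powersetCard]
        refine ⟨⟨⟨Finset.inter_subset_left, (h.pair _ _ hκ'').2.2.2⟩,
          Finset.subset_inter (hKρ κ) (hKρ κ')⟩, ?_⟩
        rintro ⟨-, h3⟩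
        exact h3 κ'.1 hκ'' rfl
      · intro a ha b hb hab
        rw [SimpleGraph.coe_neighborFinset, SimpleGraph.mem_neighborSet] at ha hb
        exact Subtype.ext (h.matching κ.1 a.1 b.1 ha hb hab)
    have h3 : (fr κ) ⊆ Rr κ := Finset.filter_subset _ _
    rw [Finset.card_sdiff_of_subset h3] at h2
    have h4 := card_ridges_le (hKc κ) hρc (hKρ κ)
    have h5 := Finset.card_le_card h3
    change (Rr κ).card ≤ 2 at h4
    omega
  have h2 : ∑ κ : K, ((fr κ).card + H.degree κ) ≤ ∑ κ : K, 2 :=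
    Finset.sum_le_sum fun κ _ => h1 κ
  rw [Finset.sum_add_distrib, hdeg, Finset.sum_const, Finset.card_univ, smul_eq_mul] at h2
  have h3 : ∑ κ : K, (fr κ).card ≤ 2 := by omega
  -- three distinct members
  by_contra hcon
  have hmem : ∀ (κ : Finset V) (hκ : Linked G ρ σ κ) (t : Finset V), t.card = d → ρ ⊆ t → t ⊆ κ →
      FreeFace G κ t → (⟨⟨κ, hκ⟩, t⟩ : Σ _ : K, Finset V) ∈ (Finset.univ : Finset K).sigma fr := by
    intro κ hκ t h4 h5 h6 h7
    rw [Finset.mem_sigma]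
    refine ⟨Finset.mem_univ _, ?_⟩
    exact Finset.mem_filter.2 ⟨Finset.mem_filter.2 ⟨Finset.mem_powersetCard.2 ⟨h6, h4⟩, h5⟩, h7⟩
  have hm1 := hmem σ Relation.ReflTransGen.refl (σ ∩ σ') hτ hρ Finset.inter_subset_left hf
  have hm2 := hmem σ' hl (σ ∩ σ') hτ hρ Finset.inter_subset_right hf'
  have hm3 := hmem κ hκ t ht hρt htκ hft
  have h8 : ({⟨⟨σ, Relation.ReflTransGen.refl⟩, σ ∩ σ'⟩, ⟨⟨σ', hl⟩, σ ∩ σ'⟩, ⟨⟨κ, hκ⟩, t⟩} :
      Finset (Σ _ : K, Finset V)) ⊆ (Finset.univ : Finset K).sigma fr := by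
    intro p hp
    rw [Finset.mem_insert, Finset.mem_insert, Finset.mem_singleton] at hp
    rcases hp with rfl | rfl | rfl
    · exact hm1
    · exact hm2
    · exact hm3
  have h9 := Finset.card_le_card h8
  rw [Finset.card_sigma] at h9
  rw [Finset.card_insert_of_notMem, Finset.card_insert_of_notMem, Finset.card_singleton] at h9
  · omega
  · rw [Finset.mem_singleton]
    intro h10
    apply hcon
    have h11 : (⟨σ', hl⟩ : K) = ⟨κ, hκ⟩ := congrArg Sigma.fst h10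
    have h12 : σ ∩ σ' = t := congrArg Sigma.snd h10
    exact ⟨Or.inr (congrArg Subtype.val h11).symm, h12.symm⟩
  · rw [Finset.mem_insert, Finset.mem_singleton]
    rintro (h10 | h10)
    · have h11 := congrArg (fun p : Σ _ : K, Finset V => p.1.1) h10
      exact hne h11
    · have h11 := congrArg (fun p : Σ _ : K, Finset V => p.1.1) h10
      have h12 := congrArg (fun p : Σ _ : K, Finset V => p.2) h10
      exact hcon ⟨Or.inl h11.symm, h12.symm⟩

theorem full_step [Fintype V] {d : ℕ} (hd : 2 ≤ d) {F S : Finset (Finset V)}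
    {G G' : Finset (Sym2 (Finset V))}
    {L L' : List (Finset V × Finset V)} (hF : ∀ σ ∈ F, σ.card = d + 1)
    (h' : Stage d F F G' L') (hfin : Final F G') (h : Stage d F S G L)
    {σ σ' ρ : Finset V} (hG : insert s(σ, σ') G ⊆ G') (hσ : σ ∈ S)
    (hne : σ ≠ σ')
    (hτ : (σ ∩ σ').card = d) (hf : FreeFace G σ (σ ∩ σ')) (hf' : FreeFace G σ' (σ ∩ σ'))
    (hρ : ρ ⊆ σ ∩ σ') (hρc : ρ.card + 1 = d) (hl : Linked G ρ σ σ') :
    Full d F (insert s(σ, σ') G) ρ := by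
  have hρσ : ρ ⊆ σ := hρ.trans Finset.inter_subset_left
  have claim : ∀ κ, Linked G ρ σ κ → ∀ t : Finset V, t.card = d → ρ ⊆ t → t ⊆ κ →
      ∃ κ', s(κ, κ') ∈ insert s(σ, σ') G ∧ κ ∩ κ' = t ∧ Linked G ρ σ κ' := by
    intro κ hκ t ht hρt htκ
    by_cases hft : FreeFace G κ t
    · obtain ⟨h1, h2⟩ := free_unique hF h hσ hne hτ hf hf' hρ hρc hl κ hκ t ht hρt htκ hft
      rcases h1 with rfl | rfl
      · exact ⟨σ', Finset.mem_insert_self _ _, h2.symm, hl⟩
      · refine ⟨σ, ?_, ?_, Relation.ReflTransGen.refl⟩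
        · rw [Sym2.eq_swap]; exact Finset.mem_insert_self _ _
        · rw [Finset.inter_comm]; exact h2.symm
    · rw [FreeFace] at hft
      push Not at hft
      obtain ⟨κ', h1, h2⟩ := hft
      refine ⟨κ', Finset.mem_insert_of_mem h1, h2, hκ.tail ⟨hρt.trans htκ, hρt.trans ?_, h1⟩⟩
      rw [← h2]
      exact Finset.inter_subset_right
  have hall : ∀ κ, Linked G' ρ σ κ → Linked G ρ σ κ := by
    intro κ hκ
    induction hκ with
    | refl => exact Relation.ReflTransGen.refl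
    | @tail b c _ hbc ih =>
      obtain ⟨h1, h2, h3⟩ := hbc
      obtain ⟨κ', h4, h5, h6⟩ := claim b ih (b ∩ c) (h'.pair _ _ h3).2.2.2
        (Finset.subset_inter h1 h2) Finset.inter_subset_left
      have h7 : κ' = c := h'.matching b κ' c (hG h4) h3 h5
      rw [← h7]
      exact h6
  intro κ hκ t ht hρt htκ
  have hne' : ρ.Nonempty := by
    rw [← Finset.card_pos]
    omega
  obtain ⟨κ', h1, h2, -⟩ := claim κ (hall κ (hfin ρ hne' σ (h.sub hσ) κ hκ hρσ (hρt.trans htκ))) t ht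
    hρt htκ
  exact ⟨κ', h1, h2⟩

theorem stage_full [Fintype V] {d : ℕ} (hd : 2 ≤ d) {F S : Finset (Finset V)}
    {G G' : Finset (Sym2 (Finset V))}
    {L L' : List (Finset V × Finset V)} (hF : ∀ σ ∈ F, σ.card = d + 1)
    (h' : Stage d F F G' L') (hfin : Final F G') (h : Stage d F S G L) (hG : G ⊆ G') :
    (∀ p ∈ L, Full d F G p.2) ∧ L.Pairwise fun p q => ¬ q.2 ⊆ p.1 := by
  induction h with
  | start σ h => exact ⟨fun p hp => absurd hp List.not_mem_nil, List.Pairwise.nil⟩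
  | attach S G σ σ' h hσ hσ' hn hτ hf ih =>
    exact ⟨fun p hp => absurd hp List.not_mem_nil, List.Pairwise.nil⟩
  | glue S G L σ σ' ρ h hσ hσ' hne hτ hf hf' hρ hρc hl ih =>
    obtain ⟨h1, h2⟩ := ih ((Finset.subset_insert _ _).trans hG)
    refine ⟨?_, ?_⟩
    · intro p hp
      rcases List.mem_cons.1 hp with rfl | hp
      · exact full_step hd hF h' hfin h hG hσ hne hτ hf hf' hρ hρc hl
      · intro κ hκ t ht hρt htκ
        obtain ⟨κ', h3, h4⟩ := h1 p hp κ hκ t ht hρt htκ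
        exact ⟨κ', Finset.mem_insert_of_mem h3, h4⟩
    · rw [List.pairwise_cons]
      refine ⟨?_, h2⟩
      intro q hq h3
      obtain ⟨κ', h4, h5⟩ := h1 q hq σ (h.sub hσ) (σ ∩ σ') hτ h3 Finset.inter_subset_left
      exact hf κ' h4 h5

/-- The triangles of the gluing steps are interior. -/
theorem full_interior {d : ℕ} {F : Finset (Finset V)} {G : Finset (Sym2 (Finset V))}
    {L : List (Finset V × Finset V)} (h : Stage d F F G L) {ρ : Finset V} (hρ : Full d F G ρ) :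
    ∀ τ ∈ bd d F, ¬ ρ ⊆ τ := by
  classical
  intro τ hτ hρτ
  rw [bd, Finset.mem_filter, Finset.mem_biUnion] at hτ
  obtain ⟨⟨κ, hκ, hτκ⟩, σ, -, huniq⟩ := hτ
  rw [Finset.mem_powersetCard] at hτκ
  obtain ⟨κ', h1, h2⟩ := hρ κ hκ τ hτκ.2 hρτ hτκ.1
  obtain ⟨h3, h4, h5, h6⟩ := h.pair _ _ h1
  have h7 := huniq κ ⟨hκ, hτκ.1⟩
  have h8 := huniq κ' ⟨h4, by rw [← h2]; exact Finset.inter_subset_right⟩
  exact h5 (h7.trans h8.symm)

end Pool.Agent.Helper26.LC
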