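import Mathlib
import Pool.Agent.Helper26.LC.Stage

/-!
# Flat labellings and cocycles on locally constructible complexes
-/

set_option autoImplicit false

namespace Pool.Agent.Helper26.LC

variable {V : Type*} [DecidableEq V]

section flat

variable {Γ : Type*} [Group Γ]

/-- flatness on one simplex -/
def FlatT (g : V → V → Γ) (t : Finset V) : Prop :=
  ∀ u ∈ t, ∀ v ∈ t, ∀ w ∈ t, g u v * g v w = g u w

omit [DecidableEq V] in
theorem FlatT.mono {g : V → V → Γ} {s t : Finset V} (h : FlatT g t) (hs : s ⊆ t) : FlatT g s :=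
  fun u hu v hv w hw => h u (hs hu) v (hs hv) w (hs hw)

omit [DecidableEq V] in
theorem FlatT.self {g : V → V → Γ} {t : Finset V} (h : FlatT g t) {u : V} (hu : u ∈ t) :
    g u u = 1 := by
  have := h u hu u hu u hu
  exact mul_eq_left.1 this

omit [DecidableEq V] in
theorem FlatT.inv {g : V → V → Γ} {t : Finset V} (h : FlatT g t) {u v : V} (hu : u ∈ t)
    (hv : v ∈ t) : g v u = (g u v)⁻¹ := by
  have := h u hu v hv u hu
  rw [h.self hu] at this
  exact (inv_eq_of_mul_eq_one_right this).symm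

theorem fourth {g : V → V → Γ} {τ ρ : Finset V} (hτ : τ.card = 4) (hρτ : ρ ⊆ τ)
    (hρ : ρ.card = 3) (h : ∀ t ⊆ τ, t.card = 3 → t ≠ ρ → FlatT g t) : FlatT g ρ := by
  obtain ⟨x, hx⟩ : (τ \ ρ).Nonempty := by
    rw [← Finset.card_pos, Finset.card_sdiff_of_subset hρτ]
    omega
  rw [Finset.mem_sdiff] at hx
  have key : ∀ u ∈ ρ, ∀ v ∈ ρ, g u v = g u x * g x v ∧ g v x * g x v = 1 := by
    intro u hu v hv
    have h1 : ({x, u, v} : Finset V) ⊆ τ := by
      intro a ha
      rw [Finset.mem_insert, Finset.mem_insert, Finset.mem_singleton] at ha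
      rcases ha with rfl | rfl | rfl
      · exact hx.1
      · exact hρτ hu
      · exact hρτ hv
    obtain ⟨t, ht1, ht2, ht3⟩ := Finset.exists_subsuperset_card_eq h1
      (Finset.card_le_three) (by omega : 3 ≤ τ.card)
    have hxt : x ∈ t := ht1 (by simp)
    have hut : u ∈ t := ht1 (by simp)
    have hvt : v ∈ t := ht1 (by simp)
    have hf := h t ht2 ht3 (fun h2 => hx.2 (h2 ▸ hxt))
    refine ⟨(hf u hut x hxt v hvt).symm, ?_⟩
    rw [hf v hvt x hxt v hvt, hf.self hvt]
  intro u hu v hv w hw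
  rw [(key u hu v hv).1, (key v hv w hw).1, (key u hu w hw).1]
  have h1 : g x v * g v x = 1 := by
    have := (key v hv v hv).2
    rw [mul_eq_one_iff_eq_inv] at this
    rw [this, mul_inv_cancel]
  calc g u x * g x v * (g v x * g x w) = g u x * (g x v * g v x) * g x w := by group
    _ = g u x * g x w := by rw [h1, mul_one]

theorem flat_of_list (F : Finset (Finset V)) (g : V → V → Γ) (L : List (Finset V × Finset V)) :
    (∀ p ∈ L, p.1.card = 4 ∧ p.2 ⊆ p.1 ∧ p.2.card = 3 ∧ ∃ σ ∈ F, p.1 ⊆ σ) →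
    L.Pairwise (fun p q => ¬ q.2 ⊆ p.1) →
    (∀ σ ∈ F, ∀ t ⊆ σ, t.card = 3 → (∀ p ∈ L, t ≠ p.2) → FlatT g t) →
    ∀ σ ∈ F, ∀ t ⊆ σ, t.card = 3 → FlatT g t := by
  induction L with
  | nil =>
    intro _ _ h σ hσ t ht ht3
    exact h σ hσ t ht ht3 fun p hp => absurd hp List.not_mem_nil
  | cons p L ih =>
    intro hL hpw h
    rw [List.pairwise_cons] at hpw
    obtain ⟨h1, h2, h3, σ₀, hσ₀, h4⟩ := hL p List.mem_cons_self
    refine ih (fun q hq => hL q (List.mem_cons_of_mem _ hq)) hpw.2 ?_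
    intro σ hσ t ht ht3 hne
    by_cases htp : t = p.2
    · rw [htp]
      refine fourth h1 h2 h3 fun t' ht' ht3' hne' => ?_
      refine h σ₀ hσ₀ t' (ht'.trans h4) ht3' fun q hq => ?_
      rcases List.mem_cons.1 hq with rfl | hq
      · exact hne'
      · intro h5
        exact hpw.1 q hq (h5 ▸ ht')
    · refine h σ hσ t ht ht3 fun q hq => ?_
      rcases List.mem_cons.1 hq with rfl | hq
      · exact htp
      · exact hne q hq

theorem flat_of_triangles {F : Finset (Finset V)} (hF : ∀ σ ∈ F, 3 ≤ σ.card) {g : V → V → Γ}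
    (h : ∀ σ ∈ F, ∀ t ⊆ σ, t.card = 3 → FlatT g t) : Flat F g := by
  intro σ hσ u hu v hv w hw
  have h1 : ({u, v, w} : Finset V) ⊆ σ := by
    intro a ha
    rw [Finset.mem_insert, Finset.mem_insert, Finset.mem_singleton] at ha
    rcases ha with rfl | rfl | rfl
    · exact hu
    · exact hv
    · exact hw
  obtain ⟨t, ht1, ht2, ht3⟩ := Finset.exists_subsuperset_card_eq h1
    (Finset.card_le_three) (hF σ hσ)
  exact h σ hσ t ht2 ht3 u (ht1 (by simp)) v (ht1 (by simp)) w (ht1 (by simp))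

/-- Gauge functions on the simplices of a stage. -/
theorem gauge {d : ℕ} (hd : 2 ≤ d) {F S : Finset (Finset V)} {G : Finset (Sym2 (Finset V))}
    {L : List (Finset V × Finset V)} (hF : ∀ σ ∈ F, σ.card = d + 1) (h : Stage d F S G L)
    {g : V → V → Γ} (hg : Flat F g) :
    ∃ f : Finset V → V → Γ, (∀ κ ∈ S, ∀ u ∈ κ, ∀ v ∈ κ, f κ v = f κ u * g u v) ∧
      ∀ κ κ', s(κ, κ') ∈ G → ∀ u ∈ κ ∩ κ', f κ u = f κ' u := by
  induction h with
  | start σ h =>
    have hne : σ.Nonempty := by
      rw [← Finset.card_pos, hF σ h]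
      omega
    obtain ⟨v0, hv0⟩ := hne
    refine ⟨fun _ u => g v0 u, ?_, fun κ κ' h => absurd h (Finset.notMem_empty _)⟩
    intro κ hκ u hu v hv
    rw [Finset.mem_singleton] at hκ
    subst hκ
    exact (hg κ h v0 hv0 u hu v hv).symm
  | attach S G σ σ' h hσ hσ' hn hτ hf ih =>
    obtain ⟨f, h1, h2⟩ := ih
    have hne : (σ ∩ σ').Nonempty := by
      rw [← Finset.card_pos]
      omega
    obtain ⟨v0, hv0⟩ := hne
    rw [Finset.mem_inter] at hv0
    refine ⟨Function.update f σ' (fun u => f σ v0 * g v0 u), ?_, ?_⟩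
    · intro κ hκ u hu v hv
      by_cases hk : κ = σ'
      · subst hk
        rw [Function.update_self, mul_assoc, hg κ hσ' v0 hv0.2 u hu v hv]
      · rw [Function.update_of_ne hk]
        exact h1 κ ((Finset.mem_insert.1 hκ).resolve_left hk) u hu v hv
    · have hss : σ ≠ σ' := fun h3 => hn (h3 ▸ hσ)
      have key : ∀ u ∈ σ ∩ σ', f σ u = f σ v0 * g v0 u := fun u hu =>
        h1 σ hσ v0 hv0.1 u (Finset.mem_inter.1 hu).1
      intro κ κ' hk u hu
      rcases Finset.mem_insert.1 hk with hk | hk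
      · rcases Sym2.eq_iff.1 hk with ⟨rfl, rfl⟩ | ⟨rfl, rfl⟩
        · rw [Function.update_self, Function.update_of_ne hss]
          exact key u hu
        · rw [Function.update_self, Function.update_of_ne hss]
          rw [Finset.inter_comm] at hu
          exact (key u hu).symm
      · obtain ⟨h3, h4, -, -⟩ := h.pair _ _ hk
        have h5 : κ ≠ σ' := fun h5 => hn (h5 ▸ h3)
        have h6 : κ' ≠ σ' := fun h6 => hn (h6 ▸ h4)
        rw [Function.update_of_ne h5, Function.update_of_ne h6]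
        exact h2 κ κ' hk u hu
  | glue S G L σ σ' ρ h hσ hσ' hne hτ hf hf' hρ hρc hl ih =>
    obtain ⟨f, h1, h2⟩ := ih
    refine ⟨f, h1, ?_⟩
    have hlink : ∀ κ, Linked G ρ σ κ → ∀ u ∈ ρ, f σ u = f κ u := by
      intro κ hκ
      induction hκ with
      | refl => intro u _; rfl
      | @tail b c _ hbc ih2 =>
        intro u hu
        rw [ih2 u hu]
        exact h2 b c hbc.2.2 u (Finset.mem_inter.2 ⟨hbc.1 hu, hbc.2.1 hu⟩)
    have hne' : ρ.Nonempty := by
      rw [← Finset.card_pos]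
      omega
    obtain ⟨v0, hv0⟩ := hne'
    have hv0' := Finset.mem_inter.1 (hρ hv0)
    have key : ∀ u ∈ σ ∩ σ', f σ u = f σ' u := by
      intro u hu
      rw [Finset.mem_inter] at hu
      rw [h1 σ hσ v0 hv0'.1 u hu.1, h1 σ' hσ' v0 hv0'.2 u hu.2, hlink σ' hl v0 hv0]
    intro κ κ' hk u hu
    rcases Finset.mem_insert.1 hk with hk | hk
    · rcases Sym2.eq_iff.1 hk with ⟨rfl, rfl⟩ | ⟨rfl, rfl⟩
      · exact key u hu
      · rw [Finset.inter_comm] at hu
        exact (key u hu).symm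
    · exact h2 κ κ' hk u hu

/-- Every flat labelling on a locally constructible complex is trivial. -/
theorem triv_of_LC {d : ℕ} (hd : 2 ≤ d) {F : Finset (Finset V)} (hLC : IsLC d F)
    {g : V → V → Γ} (hg : Flat F g) : Triv F g := by
  classical
  obtain ⟨hF, G, L, hst, hfin⟩ := hLC
  obtain ⟨f, h1, h2⟩ := gauge hd hF hst hg
  have hlink : ∀ σ κ v, Linked G {v} σ κ → f σ v = f κ v := by
    intro σ κ v hκ
    induction hκ with
    | refl => rfl
    | @tail b c _ hbc ih2 =>
      rw [ih2]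
      refine h2 b c hbc.2.2 v (Finset.mem_inter.2 ⟨hbc.1 (Finset.mem_singleton_self v),
        hbc.2.1 (Finset.mem_singleton_self v)⟩)
  refine ⟨fun v => if h : ∃ σ ∈ F, v ∈ σ then f h.choose v else 1, ?_⟩
  have key : ∀ σ ∈ F, ∀ v ∈ σ, (if h : ∃ σ ∈ F, v ∈ σ then f h.choose v else 1) = f σ v := by
    intro σ hσ v hv
    have h : ∃ σ ∈ F, v ∈ σ := ⟨σ, hσ, hv⟩
    rw [dif_pos h]
    refine hlink _ _ v (hfin {v} (Finset.singleton_nonempty v) _ h.choose_spec.1 σ hσ
      (Finset.singleton_subset_iff.2 h.choose_spec.2) (Finset.singleton_subset_iff.2 hv))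
  intro σ hσ u hu v hv
  simp only
  rw [key σ hσ u hu, key σ hσ v hv, h1 σ hσ u hu v hv, inv_mul_cancel_left]

end flat

section cochain

theorem card_between {k : ℕ} {σ t : Finset V} (hσ : σ.card = k + 2) (ht : t.card = k)
    (hts : t ⊆ σ) : ((σ.powersetCard (k + 1)).filter fun τ => t ⊆ τ).card = 2 := by
  have h1 : (σ.powersetCard (k + 1)).filter (fun τ => t ⊆ τ) = (σ \ t).image fun a => insert a t := by
    ext τ
    rw [Finset.mem_filter, Finset.mem_powersetCard, Finset.mem_image]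
    constructor
    · rintro ⟨⟨h1, h2⟩, h3⟩
      have h4 : (τ \ t).card = 1 := by
        rw [Finset.card_sdiff_of_subset h3]
        omega
      obtain ⟨a, ha⟩ := Finset.card_eq_one.1 h4
      have ha' : a ∈ τ \ t := by rw [ha]; exact Finset.mem_singleton_self a
      rw [Finset.mem_sdiff] at ha'
      refine ⟨a, Finset.mem_sdiff.2 ⟨h1 ha'.1, ha'.2⟩, ?_⟩
      rw [Finset.insert_eq, ← ha, Finset.sdiff_union_of_subset h3]
    · rintro ⟨a, ha, rfl⟩
      rw [Finset.mem_sdiff] at ha
      refine ⟨⟨Finset.insert_subset ha.1 hts, ?_⟩, Finset.subset_insert _ _⟩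
      rw [Finset.card_insert_of_notMem ha.2, ht]
  rw [h1, Finset.card_image_of_injOn, Finset.card_sdiff_of_subset hts]
  · omega
  · intro a ha b hb hab
    rw [Finset.mem_coe, Finset.mem_sdiff] at ha hb
    have h2 : a ∈ insert b t := by
      have h3 : a ∈ insert a t := Finset.mem_insert_self a t
      have h4 : insert a t = insert b t := hab
      rwa [h4] at h3
    exact (Finset.mem_insert.1 h2).resolve_right ha.2

theorem dd_zero {k : ℕ} {σ : Finset V} (hσ : σ.card = k + 2) (z : Finset V → ZMod 2) :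
    ∑ τ ∈ σ.powersetCard (k + 1), ∑ t ∈ τ.powersetCard k, z t = 0 := by
  have h1 : ∀ τ ∈ σ.powersetCard (k + 1), ∑ t ∈ τ.powersetCard k, z t =
      ∑ t ∈ σ.powersetCard k, if t ⊆ τ then z t else 0 := by
    intro τ hτ
    rw [Finset.mem_powersetCard] at hτ
    rw [← Finset.sum_filter]
    refine Finset.sum_congr ?_ fun _ _ => rfl
    ext t
    rw [Finset.mem_filter, Finset.mem_powersetCard, Finset.mem_powersetCard]
    exact ⟨fun h => ⟨⟨h.1.trans hτ.1, h.2⟩, h.1⟩, fun h => ⟨h.2, h.1.2⟩⟩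
  rw [Finset.sum_congr rfl h1, Finset.sum_comm]
  refine Finset.sum_eq_zero fun t ht => ?_
  rw [Finset.mem_powersetCard] at ht
  rw [← Finset.sum_filter, Finset.sum_const, card_between hσ ht.2 ht.1]
  generalize z t = a
  revert a
  decide

/-- Extend a cochain of dimension two so that it is a cocycle on the listed tetrahedra. -/
theorem extend_list (L : List (Finset V × Finset V)) :
    (∀ p ∈ L, p.1.card = 4 ∧ p.2 ⊆ p.1 ∧ p.2.card = 3) →
    L.Pairwise (fun p q => ¬ q.2 ⊆ p.1) →
    ∀ z0 : Finset V → ZMod 2, ∃ z : Finset V → ZMod 2, (∀ t, (∀ p ∈ L, t ≠ p.2) → z t = z0 t) ∧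
      ∀ p ∈ L, ∑ t ∈ p.1.powersetCard 3, z t = 0 := by
  induction L with
  | nil =>
    intro _ _ z0
    exact ⟨z0, fun t _ => rfl, fun p hp => absurd hp List.not_mem_nil⟩
  | cons p L ih =>
    intro hL hpw z0
    rw [List.pairwise_cons] at hpw
    obtain ⟨h1, h2, h3⟩ := hL p List.mem_cons_self
    have hp2 : p.2 ∈ p.1.powersetCard 3 := Finset.mem_powersetCard.2 ⟨h2, h3⟩
    set z1 := Function.update z0 p.2 (∑ t ∈ (p.1.powersetCard 3).erase p.2, z0 t) with hz1
    obtain ⟨z, hz, hz'⟩ := ih (fun q hq => hL q (List.mem_cons_of_mem _ hq)) hpw.2 z1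
    refine ⟨z, ?_, ?_⟩
    · intro t ht
      rw [hz t fun q hq => ht q (List.mem_cons_of_mem _ hq), hz1, Function.update_of_ne]
      exact ht p List.mem_cons_self
    · intro q hq
      rcases List.mem_cons.1 hq with rfl | hq
      · have h4 : ∀ t ∈ q.1.powersetCard 3, z t = z1 t := by
          intro t ht
          rw [Finset.mem_powersetCard] at ht
          refine hz t fun p hp h5 => hpw.1 p hp ?_
          rw [← h5]
          exact ht.1
        rw [Finset.sum_congr rfl h4, ← Finset.add_sum_erase _ _ hp2]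
        have h5 : ∑ t ∈ (q.1.powersetCard 3).erase q.2, z1 t =
            ∑ t ∈ (q.1.powersetCard 3).erase q.2, z0 t := by
          refine Finset.sum_congr rfl fun t ht => ?_
          rw [hz1, Function.update_of_ne (Finset.ne_of_mem_erase ht)]
        rw [h5, Function.update_self]
        exact CharTwo.add_self_eq_zero _
      · exact hz' q hq

/-- A function on the ridges with zero sum on each facet, which vanishes on the free ridges and on
the ridges glued in the second phase, vanishes. -/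
theorem ridge_zero {d : ℕ} {F S : Finset (Finset V)} {G : Finset (Sym2 (Finset V))}
    {L : List (Finset V × Finset V)} (h : Stage d F S G L)
    (D : Finset V → ZMod 2) (hD : ∀ σ ∈ F, ∑ τ ∈ σ.powersetCard d, D τ = 0) :
    (∀ κ ∈ S, ∀ τ ∈ κ.powersetCard d, FreeFace G κ τ → D τ = 0) → (∀ p ∈ L, D p.1 = 0) →
    ∀ κ ∈ S, ∀ τ ∈ κ.powersetCard d, D τ = 0 := by
  induction h with
  | start σ h =>
    intro h1 _ κ hκ τ hτ
    exact h1 κ hκ τ hτ fun κ' hk => absurd hk (Finset.notMem_empty _)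
  | attach S G σ σ' h hσ hσ' hn hτ hf ih =>
    intro h1 h2
    have hss : σ ≠ σ' := fun h3 => hn (h3 ▸ hσ)
    have hmem : σ ∩ σ' ∈ σ'.powersetCard d :=
      Finset.mem_powersetCard.2 ⟨Finset.inter_subset_right, hτ⟩
    have h3 : ∀ τ ∈ (σ'.powersetCard d).erase (σ ∩ σ'), D τ = 0 := by
      intro τ hτ'
      rw [Finset.mem_erase] at hτ'
      refine h1 σ' (Finset.mem_insert_self _ _) τ hτ'.2 fun κ hk hk' => ?_
      rcases Finset.mem_insert.1 hk with hk | hk
      · rcases Sym2.eq_iff.1 hk with ⟨h4, -⟩ | ⟨-, h4⟩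
        · exact hss h4.symm
        · subst h4
          exact hτ'.1 (by rw [← hk', Finset.inter_comm])
      · exact hn (h.pair _ _ hk).1
    have h4 : D (σ ∩ σ') = 0 := by
      have h5 := hD σ' hσ'
      rw [← Finset.add_sum_erase _ _ hmem, Finset.sum_eq_zero h3, add_zero] at h5
      exact h5
    have h5 := ih (by
      intro κ hκ τ hτ' hfr
      by_cases h6 : FreeFace (insert s(σ, σ') G) κ τ
      · exact h1 κ (Finset.mem_insert_of_mem hκ) τ hτ' h6
      · rw [FreeFace] at h6
        push Not at h6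
        obtain ⟨κ', hk, hk'⟩ := h6
        rcases Finset.mem_insert.1 hk with hk | hk
        · rcases Sym2.eq_iff.1 hk with ⟨rfl, rfl⟩ | ⟨rfl, rfl⟩
          · rw [← hk']; exact h4
          · exact absurd hκ hn
        · exact absurd hk' (hfr κ' hk)) (fun p hp => absurd hp List.not_mem_nil)
    intro κ hκ τ hτ'
    rcases Finset.mem_insert.1 hκ with rfl | hκ
    · by_cases h6 : τ = σ ∩ κ
      · rw [h6]; exact h4
      · exact h3 τ (Finset.mem_erase.2 ⟨h6, hτ'⟩)
    · exact h5 κ hκ τ hτ'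
  | glue S G L σ σ' ρ h hσ hσ' hne hτ hf hf' hρ hρc hl ih =>
    intro h1 h2
    refine ih ?_ fun p hp => h2 p (List.mem_cons_of_mem _ hp)
    intro κ hκ τ hτ' hfr
    by_cases h6 : FreeFace (insert s(σ, σ') G) κ τ
    · exact h1 κ hκ τ hτ' h6
    · rw [FreeFace] at h6
      push Not at h6
      obtain ⟨κ', hk, hk'⟩ := h6
      have h7 := h2 (σ ∩ σ', ρ) List.mem_cons_self
      rcases Finset.mem_insert.1 hk with hk | hk
      · rcases Sym2.eq_iff.1 hk with ⟨rfl, rfl⟩ | ⟨rfl, rfl⟩
        · rw [← hk']; exact h7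
        · rw [← hk', Finset.inter_comm]; exact h7
      · exact absurd hk' (hfr κ' hk)

end cochain

end Pool.Agent.Helper26.LC
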