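import Mathlib
import Pool.Agent.Helper26.LC.GR
import Pool.Agent.Helper26.LC.FlatLem

/-!
# Extension of flat labellings from the boundary of a locally constructible complex
-/

set_option autoImplicit false

namespace Pool.Agent.Helper26.LC

open Function

/-- Systems whose matrix of signs is surjective are solvable. -/
theorem gr_surj {U R : Type*} [Fintype U] [Fintype R] [DecidableEq U]
    (A : R → U → ZMod 2)
    (hA : Surjective (fun (c : U → ZMod 2) (r : R) => ∑ e, A r e * c e))
    (W : R → (U → Q) → Q) (hW : ∀ r, Continuous (W r))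
    (hflip : ∀ r x e, W r (update x e (-(x e))) = if A r e = 0 then W r x else -(W r x)) :
    ∃ x, ∀ r, W r x = 1 := by
  classical
  let v : U → (R → ZMod 2) := fun e r => A r e
  have hv : ∀ (κ : Type _) [Fintype κ] (a : κ → U) (c : κ → ZMod 2),
      ∑ k, c k • (v ∘ a) k = fun r => ∑ k, A r (a k) * c k := by
    intro κ _ a c
    funext r
    rw [Finset.sum_apply]
    refine Finset.sum_congr rfl fun k _ => ?_
    rw [Pi.smul_apply, smul_eq_mul, mul_comm]
    rfl
  obtain ⟨κ, a, ha, hspan, hli⟩ := exists_linearIndependent' (ZMod 2) v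
  have : Fintype κ := Fintype.ofInjective a ha
  have htop : Submodule.span (ZMod 2) (Set.range v) = ⊤ := by
    rw [Submodule.eq_top_iff']
    intro s
    obtain ⟨c, hc⟩ := hA s
    rw [Submodule.mem_span_range_iff_exists_fun]
    refine ⟨c, ?_⟩
    have := hv U id c
    rw [Function.comp_id] at this
    rw [this]
    exact hc
  obtain ⟨x, hx⟩ := gr (fun r k => A r (a k)) (by
    constructor
    · intro c c' hcc
      simp only at hcc
      rw [← hv κ a c, ← hv κ a c'] at hcc
      have h0 : ∑ k, (c k - c' k) • (v ∘ a) k = 0 := by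
        simp only [sub_smul, Finset.sum_sub_distrib]
        rw [hcc, sub_self]
      have h1 := Fintype.linearIndependent_iff.1 hli (fun k => c k - c' k) h0
      funext k
      exact sub_eq_zero.1 (h1 k)
    · intro s
      have hs : s ∈ Submodule.span (ZMod 2) (Set.range (v ∘ a)) := by
        rw [hspan, htop]
        exact Submodule.mem_top
      rw [Submodule.mem_span_range_iff_exists_fun] at hs
      obtain ⟨c, hc⟩ := hs
      refine ⟨c, ?_⟩
      rw [← hc, hv κ a c])
    (fun r x => W r (extend a x 1)) (by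
      intro r
      refine (hW r).comp (continuous_pi fun e => ?_)
      by_cases he : ∃ k, a k = e
      · obtain ⟨k, rfl⟩ := he
        simp only [ha.extend_apply]
        exact continuous_apply k
      · simp only [extend_apply' _ _ _ he]
        exact continuous_const) (by
      intro r x k
      have h1 : extend a (update x k (-(x k))) 1 =
          update (extend a x 1) (a k) (-(extend a x 1 (a k))) := by
        funext e
        by_cases he : ∃ k, a k = e
        · obtain ⟨l, rfl⟩ := he
          rw [ha.extend_apply]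
          by_cases hl : l = k
          · subst hl
            rw [update_self, update_self, ha.extend_apply]
          · rw [update_of_ne hl, update_of_ne (fun h => hl (ha h)), ha.extend_apply]
        · rw [extend_apply' _ _ _ he, update_of_ne, extend_apply' _ _ _ he]
          rintro rfl
          exact he ⟨k, rfl⟩
      rw [h1]
      exact hflip r _ (a k))
  exact ⟨extend a x 1, hx⟩

variable {V : Type*} [DecidableEq V]

theorem Stage.mem_list {d : ℕ} {F S : Finset (Finset V)} {G : Finset (Sym2 (Finset V))}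
    {L : List (Finset V × Finset V)} (h : Stage d F S G L) :
    ∀ p ∈ L, p.1.card = d ∧ p.2 ⊆ p.1 ∧ p.2.card + 1 = d ∧ ∃ σ ∈ F, p.1 ⊆ σ := by
  induction h with
  | start σ h => exact fun p hp => absurd hp List.not_mem_nil
  | attach S G σ σ' h hσ hσ' hn hτ hf ih => exact fun p hp => absurd hp List.not_mem_nil
  | glue S G L σ σ' ρ h hσ hσ' hne hτ hf hf' hρ hρc hl ih =>
    intro p hp
    rcases List.mem_cons.1 hp with rfl | hp
    · exact ⟨hτ, hρ, hρc, σ, h.sub hσ, Finset.inter_subset_left⟩
    · exact ih p hp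

section qlab

variable (B : Finset (Finset V)) (idx : V → ℕ) (g0 : V → V → Q)

/-- the unknown edges -/
abbrev UE : Type _ := {e : Finset V // e.card = 2 ∧ ¬ ∃ τ ∈ B, e ⊆ τ}

open Classical in
/-- the labelling with unknowns `x` -/
noncomputable def qlab (x : UE B → Q) (u v : V) : Q :=
  if h : ({u, v} : Finset V).card = 2 ∧ ¬ ∃ τ ∈ B, {u, v} ⊆ τ then
    (if idx u < idx v then x ⟨{u, v}, h⟩ else (x ⟨{u, v}, h⟩)⁻¹)
  else if u = v then 1 else g0 u v

variable {B idx g0}

theorem qlab_self (x : UE B → Q) (u : V) : qlab B idx g0 x u u = 1 := by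
  rw [qlab, dif_neg, if_pos rfl]
  rintro ⟨h, -⟩
  simp at h

theorem qlab_bd (hg0 : Flat B g0) (x : UE B → Q) {τ : Finset V} (hτ : τ ∈ B) {u v : V}
    (hu : u ∈ τ) (hv : v ∈ τ) : qlab B idx g0 x u v = g0 u v := by
  rw [qlab, dif_neg]
  · split_ifs with h
    · subst h
      exact (FlatT.self (hg0 τ hτ) hu).symm
    · rfl
  · rintro ⟨-, h⟩
    refine h ⟨τ, hτ, ?_⟩
    rw [Finset.insert_subset_iff, Finset.singleton_subset_iff]
    exact ⟨hu, hv⟩

theorem qlab_inv (hidx : Injective idx) (hg0 : Flat B g0) (x : UE B → Q) (u v : V) :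
    qlab B idx g0 x v u = (qlab B idx g0 x u v)⁻¹ := by
  by_cases huv : u = v
  · subst huv
    rw [qlab_self, inv_one]
  by_cases h : ({u, v} : Finset V).card = 2 ∧ ¬ ∃ τ ∈ B, {u, v} ⊆ τ
  · have h' : ({v, u} : Finset V).card = 2 ∧ ¬ ∃ τ ∈ B, {v, u} ⊆ τ := by
      rw [Finset.pair_comm]; exact h
    have he : (⟨{v, u}, h'⟩ : UE B) = ⟨{u, v}, h⟩ := Subtype.ext (Finset.pair_comm _ _)
    rw [qlab, qlab, dif_pos h, dif_pos h', he]
    rcases lt_or_gt_of_ne (fun h2 => huv (hidx h2)) with h3 | h3
    · rw [if_neg (not_lt.2 h3.le), if_pos h3]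
    · rw [if_pos h3, if_neg (not_lt.2 h3.le), inv_inv]
  · have h2 : ∃ τ ∈ B, {u, v} ⊆ τ := by
      by_contra h3
      exact h ⟨Finset.card_pair huv, h3⟩
    obtain ⟨τ, hτ, h3⟩ := h2
    rw [Finset.insert_subset_iff, Finset.singleton_subset_iff] at h3
    rw [qlab_bd hg0 x hτ h3.1 h3.2, qlab_bd hg0 x hτ h3.2 h3.1]
    exact FlatT.inv (hg0 τ hτ) h3.1 h3.2

theorem qlab_flip (x : UE B → Q) (e : UE B) (u v : V) :
    qlab B idx g0 (update x e (-(x e))) u v =
      if ({u, v} : Finset V) = e.1 then -(qlab B idx g0 x u v) else qlab B idx g0 x u v := by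
  by_cases h : ({u, v} : Finset V).card = 2 ∧ ¬ ∃ τ ∈ B, {u, v} ⊆ τ
  · rw [qlab, qlab, dif_pos h, dif_pos h]
    by_cases he : ({u, v} : Finset V) = e.1
    · have he' : (⟨{u, v}, h⟩ : UE B) = e := Subtype.ext he
      rw [if_pos he, he', update_self]
      split_ifs
      · rfl
      · exact Q.inv_neg' _
    · have he' : (⟨{u, v}, h⟩ : UE B) ≠ e := fun h2 => he (congrArg Subtype.val h2)
      rw [if_neg he, update_of_ne he']
  · have he : ({u, v} : Finset V) ≠ e.1 := fun h2 => h (by rw [h2]; exact e.2)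
    rw [if_neg he, qlab, qlab, dif_neg h, dif_neg h]

theorem continuous_qlab (u v : V) : Continuous (fun x : UE B → Q => qlab B idx g0 x u v) := by
  unfold qlab
  split_ifs
  · exact continuous_apply _
  · exact (continuous_apply _).inv
  · exact continuous_const
  · exact continuous_const

end qlab

theorem flat_three {Γ : Type*} [Group Γ] {g : V → V → Γ} (hs : ∀ u, g u u = 1)
    (hi : ∀ u v, g v u = (g u v)⁻¹) {a b c : V} (h : g a b * g b c * g c a = 1) :
    FlatT g {a, b, c} := by
  have hca : g c a = (g a b * g b c)⁻¹ := (inv_eq_of_mul_eq_one_right h).symm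
  have hac : g a c = g a b * g b c := by rw [hi c a, hca, inv_inv]
  have key : ∀ u ∈ ({a, b, c} : Finset V), ∀ v ∈ ({a, b, c} : Finset V),
      g u v = (g a u)⁻¹ * g a v := by
    intro u hu v hv
    rw [Finset.mem_insert, Finset.mem_insert, Finset.mem_singleton] at hu hv
    rcases hu with hu | hu | hu <;> rcases hv with hv | hv | hv <;> rw [hu, hv]
    · rw [hs, inv_one, one_mul]
    · rw [hs, inv_one, one_mul]
    · rw [hs, inv_one, one_mul]
    · rw [hs, mul_one, hi a b]
    · rw [hs, inv_mul_cancel]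
    · rw [hac, inv_mul_cancel_left]
    · rw [hs, mul_one, hi a c]
    · rw [hac, mul_inv_rev, inv_mul_cancel_right, hi b c]
    · rw [hs, inv_mul_cancel]
  intro u hu v hv w hw
  rw [key u hu v hv, key v hv w hw, key u hu w hw]
  group

/-- The cochain extension: the matrix of signs is surjective. -/
theorem surj [Fintype V] {F : Finset (Finset V)} (hF : ∀ σ ∈ F, σ.card = 4 + 1)
    {G : Finset (Sym2 (Finset V))} {L : List (Finset V × Finset V)} (hst : Stage 4 F F G L)
    (hfin : Final F G)
    (H1 : ∀ g : V → V → Multiplicative (ZMod 2), Flat (bd 4 F) g → Triv (bd 4 F) g)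
    (H2 : H2Zero F) (z0 : Finset V → ZMod 2) (hz0 : ∀ τ ∈ bd 4 F, ∀ t ⊆ τ, z0 t = 0) :
    ∃ w : Finset V → ZMod 2, (∀ τ ∈ bd 4 F, ∀ e ⊆ τ, e.card = 2 → w e = 0) ∧
      ∀ σ ∈ F, ∀ t ⊆ σ, t.card = 3 → (∀ p ∈ L, t ≠ p.2) →
        ∑ e ∈ t.powersetCard 2, w e = z0 t := by
  classical
  obtain ⟨hfull, hpw⟩ := stage_full (by norm_num) hF hst hfin hst subset_rfl
  have hL := hst.mem_list
  obtain ⟨z, hz, hz'⟩ := extend_list L (fun p hp => ⟨(hL p hp).1, (hL p hp).2.1, by
    have := (hL p hp).2.2.1
    omega⟩) hpw z0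
  have hbz : ∀ τ ∈ bd 4 F, ∀ t ⊆ τ, z t = 0 := by
    intro τ hτ t ht
    rw [hz t, hz0 τ hτ t ht]
    intro p hp h
    exact full_interior hst (hfull p hp) τ hτ (h ▸ ht)
  have hD := ridge_zero hst (fun τ => ∑ t ∈ τ.powersetCard 3, z t)
    (fun σ hσ => dd_zero (hF σ hσ) z) (by
      intro κ hκ τ hτ hfr
      rw [Finset.mem_powersetCard] at hτ
      refine Finset.sum_eq_zero fun t ht => ?_
      rw [Finset.mem_powersetCard] at ht
      exact hbz τ (free_final (by norm_num) hst hfin hκ hτ.2 hτ.1 hfr) t ht.1) hz'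
  obtain ⟨w, hw⟩ := H2 z hD
  -- the restriction to the boundary
  have hbd : ∀ τ ∈ bd 4 F, ∃ σ ∈ F, τ ⊆ σ := by
    intro τ hτ
    rw [bd, Finset.mem_filter] at hτ
    obtain ⟨-, σ, hσ, -⟩ := hτ
    exact ⟨σ, hσ.1, hσ.2⟩
  let g : V → V → Multiplicative (ZMod 2) := fun u v =>
    Multiplicative.ofAdd (if u = v then 0 else w {u, v})
  have hg : Flat (bd 4 F) g := by
    intro τ hτ a ha b hb c hc
    obtain ⟨σ, hσ, hτσ⟩ := hbd τ hτ
    change Multiplicative.ofAdd _ * Multiplicative.ofAdd _ = Multiplicative.ofAdd _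
    rw [← ofAdd_add]
    congr 1
    by_cases hab : a = b
    · subst hab
      rw [if_pos rfl, zero_add]
    by_cases hbc : b = c
    · subst hbc
      rw [if_pos rfl, add_zero]
    by_cases hac : a = c
    · subst hac
      rw [if_neg hab, if_neg hbc, if_pos rfl, Finset.pair_comm b a]
      exact CharTwo.add_self_eq_zero _
    rw [if_neg hab, if_neg hbc, if_neg hac]
    have ht : ({a, b, c} : Finset V) ⊆ τ := by
      intro x hx
      rw [Finset.mem_insert, Finset.mem_insert, Finset.mem_singleton] at hx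
      rcases hx with rfl | rfl | rfl
      · exact ha
      · exact hb
      · exact hc
    have h3 : ({a, b, c} : Finset V).card = 3 := Finset.card_eq_three.2 ⟨a, b, c, hab, hac, hbc, rfl⟩
    have h4 := hw σ hσ {a, b, c} (Finset.mem_powersetCard.2 ⟨ht.trans hτσ, h3⟩)
    rw [hbz τ hτ _ ht] at h4
    have h5 : ({a, b, c} : Finset V).powersetCard 2 = {{a, b}, {b, c}, {a, c}} := by
      ext e
      rw [Finset.mem_powersetCard]
      constructor
      · rintro ⟨h6, h7⟩
        obtain ⟨x, y, hxy, rfl⟩ := Finset.card_eq_two.1 h7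
        rw [Finset.insert_subset_iff, Finset.singleton_subset_iff] at h6
        obtain ⟨h8, h9⟩ := h6
        simp only [Finset.mem_insert, Finset.mem_singleton] at h8 h9 ⊢
        rcases h8 with rfl | rfl | rfl <;> rcases h9 with rfl | rfl | rfl
        · exact absurd rfl hxy
        · exact Or.inl rfl
        · exact Or.inr (Or.inr rfl)
        · exact Or.inl (Finset.pair_comm _ _)
        · exact absurd rfl hxy
        · exact Or.inr (Or.inl rfl)
        · exact Or.inr (Or.inr (Finset.pair_comm _ _))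
        · exact Or.inr (Or.inl (Finset.pair_comm _ _))
        · exact absurd rfl hxy
      · intro h6
        simp only [Finset.mem_insert, Finset.mem_singleton] at h6
        rcases h6 with rfl | rfl | rfl
        · refine ⟨?_, Finset.card_pair hab⟩
          intro x hx
          simp only [Finset.mem_insert, Finset.mem_singleton] at hx ⊢
          tauto
        · refine ⟨?_, Finset.card_pair hbc⟩
          intro x hx
          simp only [Finset.mem_insert, Finset.mem_singleton] at hx ⊢
          tauto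
        · refine ⟨?_, Finset.card_pair hac⟩
          intro x hx
          simp only [Finset.mem_insert, Finset.mem_singleton] at hx ⊢
          tauto
    have h6 : ({a, b} : Finset V) ≠ {b, c} := by
      intro h
      have : a ∈ ({b, c} : Finset V) := by rw [← h]; simp
      simp only [Finset.mem_insert, Finset.mem_singleton] at this
      tauto
    have h7 : ({a, b} : Finset V) ≠ {a, c} := by
      intro h
      have : b ∈ ({a, c} : Finset V) := by rw [← h]; simp
      simp only [Finset.mem_insert, Finset.mem_singleton] at this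
      rcases this with h | h
      · exact hab h.symm
      · exact hbc h
    have h8 : ({b, c} : Finset V) ≠ {a, c} := by
      intro h
      have : b ∈ ({a, c} : Finset V) := by rw [← h]; simp
      simp only [Finset.mem_insert, Finset.mem_singleton] at this
      rcases this with h | h
      · exact hab h.symm
      · exact hbc h
    rw [h5, Finset.sum_insert, Finset.sum_insert, Finset.sum_singleton, ← add_assoc] at h4
    · exact (add_eq_zero_iff_eq_neg.1 h4.symm).trans (CharTwo.neg_eq _)
    · rw [Finset.mem_singleton]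
      exact h8
    · rw [Finset.mem_insert, Finset.mem_singleton]
      rintro (h | h)
      · exact h6 h
      · exact h7 h
  obtain ⟨b, hb⟩ := H1 g hg
  let b' : V → ZMod 2 := fun v => Multiplicative.toAdd (b v)
  refine ⟨fun e => w e + ∑ v ∈ e, b' v, ?_, ?_⟩
  · intro τ hτ e he he2
    obtain ⟨x, y, hxy, rfl⟩ := Finset.card_eq_two.1 he2
    rw [Finset.insert_subset_iff, Finset.singleton_subset_iff] at he
    have h1 := congrArg Multiplicative.toAdd (hb τ hτ x he.1 y he.2)
    have h2 : Multiplicative.toAdd (g x y) = w {x, y} := by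
      change (if x = y then 0 else w {x, y}) = w {x, y}
      rw [if_neg hxy]
    rw [h2, toAdd_mul, toAdd_inv] at h1
    change w {x, y} + ∑ v ∈ {x, y}, b' v = 0
    rw [Finset.sum_pair hxy, h1]
    change -b' x + b' y + (b' x + b' y) = 0
    generalize b' x = p
    generalize b' y = q
    revert p q
    decide
  · intro σ hσ t ht ht3 hne
    rw [Finset.sum_add_distrib, ← hw σ hσ t (Finset.mem_powersetCard.2 ⟨ht, ht3⟩), hz t hne]
    have h1 := dd_zero (k := 1) ht3 (fun s => ∑ v ∈ s, b' v)
    have h2 : ∀ e ∈ t.powersetCard 2, ∑ s ∈ e.powersetCard 1, ∑ v ∈ s, b' v = ∑ v ∈ e, b' v := by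
      intro e _
      rw [Finset.powersetCard_one, Finset.sum_map]
      refine Finset.sum_congr rfl fun v _ => ?_
      exact Finset.sum_singleton _ _
    rw [Finset.sum_congr rfl h2] at h1
    rw [h1, add_zero]

/-- A two-element subset of a triangle. -/
theorem pair_cases {a b c : V} {e : Finset V} (he : e.card = 2) (h : e ⊆ {a, b, c}) :
    e = {a, b} ∨ e = {b, c} ∨ e = {c, a} := by
  obtain ⟨x, y, hxy, rfl⟩ := Finset.card_eq_two.1 he
  rw [Finset.insert_subset_iff, Finset.singleton_subset_iff] at h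
  obtain ⟨h8, h9⟩ := h
  simp only [Finset.mem_insert, Finset.mem_singleton] at h8 h9
  rcases h8 with rfl | rfl | rfl <;> rcases h9 with rfl | rfl | rfl
  · exact absurd rfl hxy
  · exact Or.inl rfl
  · exact Or.inr (Or.inr (Finset.pair_comm _ _))
  · exact Or.inl (Finset.pair_comm _ _)
  · exact absurd rfl hxy
  · exact Or.inr (Or.inl rfl)
  · exact Or.inr (Or.inr rfl)
  · exact Or.inr (Or.inl (Finset.pair_comm _ _))
  · exact absurd rfl hxy

/-- **Main combinatorial theorem.** Let `F` generate a locally constructible complex of dimension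
four with vanishing second cohomology modulo two, such that every `ℤ/2`-labelling which is flat on
the boundary is trivial there. Then every labelling by unit quaternions which is flat on the
boundary is trivial there. -/
theorem level1 [Fintype V] {F : Finset (Finset V)} (hLC : IsLC 4 F)
    (H1 : ∀ g : V → V → Multiplicative (ZMod 2), Flat (bd 4 F) g → Triv (bd 4 F) g)
    (H2 : H2Zero F) (g0 : V → V → Q) (hg0 : Flat (bd 4 F) g0) : Triv (bd 4 F) g0 := by
  classical
  obtain ⟨hF, G, L, hst, hfin⟩ := id hLC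
  obtain ⟨hfull, hpw⟩ := stage_full (by norm_num) hF hst hfin hst subset_rfl
  have hL := hst.mem_list
  set B := bd 4 F with hB
  let idx : V → ℕ := fun v => (Fintype.equivFin V v : ℕ)
  have hidx : Injective idx := fun u v h => (Fintype.equivFin V).injective (Fin.ext h)
  let P : Finset V → Prop := fun t => t.card = 3 ∧ (∃ σ ∈ F, t ⊆ σ) ∧ (¬ ∃ τ ∈ B, t ⊆ τ) ∧
    ∀ p ∈ L, t ≠ p.2
  let R := {t : Finset V // P t}
  have hR : ∀ r : R, ∃ a b c, a ≠ b ∧ a ≠ c ∧ b ≠ c ∧ r.1 = {a, b, c} := fun r =>
    Finset.card_eq_three.1 r.2.1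
  choose a b c hab hac hbc hr using hR
  let A : R → UE B → ZMod 2 := fun r e => if e.1 ⊆ r.1 then 1 else 0
  let W : R → (UE B → Q) → Q := fun r x =>
    qlab B idx g0 x (a r) (b r) * qlab B idx g0 x (b r) (c r) * qlab B idx g0 x (c r) (a r)
  have hA : Surjective (fun (c : UE B → ZMod 2) (r : R) => ∑ e, A r e * c e) := by
    intro y
    obtain ⟨w, hw1, hw2⟩ := surj hF hst hfin H1 H2 (fun t => if h : P t then y ⟨t, h⟩ else 0) (by
      intro τ hτ t ht
      rw [dif_neg]
      rintro ⟨-, -, h, -⟩
      exact h ⟨τ, hτ, ht⟩)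
    refine ⟨fun e => w e.1, ?_⟩
    funext r
    obtain ⟨σ, hσ, hrσ⟩ := r.2.2.1
    have h1 := hw2 σ hσ r.1 hrσ r.2.1 r.2.2.2.2
    rw [dif_pos r.2] at h1
    change _ = y ⟨r.1, r.2⟩
    rw [← h1]
    have h2 : ∑ e : UE B, A r e * w e.1 = ∑ e ∈ (Finset.univ : Finset (Finset V)).filter
        (fun e => e.card = 2 ∧ ¬ ∃ τ ∈ B, e ⊆ τ), (if e ⊆ r.1 then 1 else 0) * w e := by
      refine (Finset.sum_subtype (p := fun e : Finset V => e.card = 2 ∧ ¬ ∃ τ ∈ B, e ⊆ τ) _
        (fun e => ?_) (fun e => (if e ⊆ r.1 then (1 : ZMod 2) else 0) * w e)).symm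
      rw [Finset.mem_filter]
      exact ⟨fun h => h.2, fun h => ⟨Finset.mem_univ _, h⟩⟩
    refine h2.trans ?_
    have h3 : ∀ e ∈ (Finset.univ : Finset (Finset V)).filter
        (fun e => e.card = 2 ∧ ¬ ∃ τ ∈ B, e ⊆ τ), (if e ⊆ r.1 then 1 else 0) * w e =
        if e ⊆ r.1 then w e else 0 := by
      intro e _
      split_ifs
      · rw [one_mul]
      · rw [zero_mul]
    rw [Finset.sum_congr rfl h3, ← Finset.sum_filter]
    refine Finset.sum_subset ?_ ?_
    · intro e he
      rw [Finset.mem_filter, Finset.mem_filter] at he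
      exact Finset.mem_powersetCard.2 ⟨he.2, he.1.2.1⟩
    · intro e he he'
      rw [Finset.mem_powersetCard] at he
      by_contra hwe
      apply he'
      rw [Finset.mem_filter, Finset.mem_filter]
      refine ⟨⟨Finset.mem_univ _, he.2, ?_⟩, he.1⟩
      rintro ⟨τ, hτ, h4⟩
      exact hwe (hw1 τ hτ e h4 he.2)
  have hflip : ∀ r x e, W r (update x e (-(x e))) = if A r e = 0 then W r x else -(W r x) := by
    intro r x e
    simp only [W, A]
    rw [qlab_flip, qlab_flip, qlab_flip]
    have e2 := e.2.1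
    have n1 : ({a r, b r} : Finset V) ≠ {b r, c r} := by
      intro h
      have h2 : a r ∈ ({b r, c r} : Finset V) := by rw [← h]; simp
      simp only [Finset.mem_insert, Finset.mem_singleton] at h2
      rcases h2 with h2 | h2
      · exact hab r h2
      · exact hac r h2
    have n2 : ({a r, b r} : Finset V) ≠ {c r, a r} := by
      intro h
      have h2 : b r ∈ ({c r, a r} : Finset V) := by rw [← h]; simp
      simp only [Finset.mem_insert, Finset.mem_singleton] at h2
      rcases h2 with h2 | h2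
      · exact hbc r h2
      · exact hab r h2.symm
    have n3 : ({b r, c r} : Finset V) ≠ {c r, a r} := by
      intro h
      have h2 : b r ∈ ({c r, a r} : Finset V) := by rw [← h]; simp
      simp only [Finset.mem_insert, Finset.mem_singleton] at h2
      rcases h2 with h2 | h2
      · exact hbc r h2
      · exact hab r h2.symm
    have s1 : ({a r, b r} : Finset V) ⊆ r.1 := by
      rw [hr r]
      intro x hx
      simp only [Finset.mem_insert, Finset.mem_singleton] at hx ⊢
      tauto
    have s2 : ({b r, c r} : Finset V) ⊆ r.1 := by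
      rw [hr r]
      intro x hx
      simp only [Finset.mem_insert, Finset.mem_singleton] at hx ⊢
      tauto
    have s3 : ({c r, a r} : Finset V) ⊆ r.1 := by
      rw [hr r]
      intro x hx
      simp only [Finset.mem_insert, Finset.mem_singleton] at hx ⊢
      tauto
    by_cases he : e.1 ⊆ r.1
    · rw [if_pos he, if_neg one_ne_zero]
      rw [hr r] at he
      rcases pair_cases e2 he with h | h | h
      · rw [h, if_pos rfl, if_neg n1.symm, if_neg n2.symm, neg_mul, neg_mul]
      · rw [h, if_neg n1, if_pos rfl, if_neg n3.symm, mul_neg, neg_mul]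
      · rw [h, if_neg n2, if_neg n3, if_pos rfl, mul_neg]
    · rw [if_neg he, if_pos rfl, if_neg (fun h : ({a r, b r} : Finset V) = e.1 => he (h ▸ s1)),
        if_neg (fun h : ({b r, c r} : Finset V) = e.1 => he (h ▸ s2)),
        if_neg (fun h : ({c r, a r} : Finset V) = e.1 => he (h ▸ s3))]
  have hW : ∀ r, Continuous (W r) := fun r =>
    ((continuous_qlab _ _).mul (continuous_qlab _ _)).mul (continuous_qlab _ _)
  obtain ⟨x, hx⟩ := gr_surj A hA W hW hflip
  have htri : ∀ σ ∈ F, ∀ t ⊆ σ, t.card = 3 → (∀ p ∈ L, t ≠ p.2) → FlatT (qlab B idx g0 x) t := by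
    intro σ hσ t ht ht3 hne
    by_cases hbt : ∃ τ ∈ B, t ⊆ τ
    · obtain ⟨τ, hτ, htτ⟩ := hbt
      intro u hu v hv w hw
      rw [qlab_bd hg0 x hτ (htτ hu) (htτ hv), qlab_bd hg0 x hτ (htτ hv) (htτ hw),
        qlab_bd hg0 x hτ (htτ hu) (htτ hw)]
      exact hg0 τ hτ u (htτ hu) v (htτ hv) w (htτ hw)
    · have h1 := hx ⟨t, ht3, ⟨σ, hσ, ht⟩, hbt, hne⟩
      have h2 := flat_three (qlab_self x) (qlab_inv hidx hg0 x) h1
      rw [← hr] at h2
      exact h2
  have hflat : Flat F (qlab B idx g0 x) := flat_of_triangles (fun σ hσ => by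
      have := hF σ hσ
      omega) (flat_of_list F _ L (fun p hp => ⟨(hL p hp).1, (hL p hp).2.1, by
        have := (hL p hp).2.2.1
        omega, (hL p hp).2.2.2⟩) hpw htri)
  obtain ⟨f, hf⟩ := triv_of_LC (by norm_num) hLC hflat
  refine ⟨f, fun τ hτ u hu v hv => ?_⟩
  have hbd : ∃ σ ∈ F, τ ⊆ σ := by
    rw [hB, bd, Finset.mem_filter] at hτ
    obtain ⟨-, σ, hσ, -⟩ := hτ
    exact ⟨σ, hσ.1, hσ.2⟩
  obtain ⟨σ, hσ, hτσ⟩ := hbd
  rw [← hf σ hσ u (hτσ hu) v (hτσ hv), qlab_bd hg0 x hτ hu hv]

end Pool.Agent.Helper26.LC
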