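import Mathlib
import Pool.Agent.Helper26.LC.Level1
import Pool.Agent.Helper26.LC.Gamma
import Pool.Agent.Helper84.LC.T5b
import Pool.Agent.Helper89.LC.T23
import Pool.Agent.Helper92.LCT4

/-!
# From the combinatorial theorem to topology
-/

set_option autoImplicit false

namespace Pool.Agent.Helper26.LC

open scoped Manifold

section pi1

variable {X Y : Type*} [TopologicalSpace X] [TopologicalSpace Y]

theorem map_surj (e : X ≃ₜ Y) {x : X} {y : Y} (h : (e : C(X, Y)) x = y) :
    Function.Surjective (FundamentalGroup.mapOfEq (e : C(X, Y)) h) := by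
  subst h
  intro p
  have h2 : (e.symm : C(Y, X)) ((e : C(X, Y)) x) = x := e.symm_apply_apply x
  refine ⟨FundamentalGroup.mapOfEq (e.symm : C(Y, X)) h2 p, ?_⟩
  rw [FundamentalGroup.mapOfEq_apply, FundamentalGroup.mapOfEq_apply]
  induction p using Quotient.inductionOn with
  | h γ =>
    change (⟦_⟧ : Path.Homotopic.Quotient _ _) = ⟦γ⟧
    refine congrArg _ ?_
    ext t
    change e (e.symm (γ t)) = γ t
    exact e.apply_symm_apply _

end pi1

variable {V : Type*} [DecidableEq V] [Fintype V]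

/-- The homeomorphism between the boundary complex and the boundary of the manifold. -/
noncomputable def bdHomeo {W : Type*} [TopologicalSpace W] {A B : Set (V → ℝ)} {D : Set W}
    (h : A ≃ₜ W) (hBA : B ⊆ A) (hD : ∀ p : A, (p : V → ℝ) ∈ B ↔ h p ∈ D) : B ≃ₜ D where
  toFun p := ⟨h ⟨p.1, hBA p.2⟩, (hD _).1 p.2⟩
  invFun q := ⟨(h.symm q.1).1, (hD _).2 (by rw [h.apply_symm_apply]; exact q.2)⟩
  left_inv p := by
    refine Subtype.ext ?_
    change (h.symm (h ⟨p.1, hBA p.2⟩)).1 = p.1
    rw [h.symm_apply_apply]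
  right_inv q := by
    refine Subtype.ext ?_
    change h ⟨(h.symm q.1).1, _⟩ = q.1
    exact h.apply_symm_apply _
  continuous_toFun :=
    (h.continuous.comp (continuous_subtype_val.subtype_mk _)).subtype_mk _
  continuous_invFun :=
    (continuous_subtype_val.comp (h.symm.continuous.comp continuous_subtype_val)).subtype_mk _

theorem space_bd_sub {d : ℕ} (F : Finset (Finset V)) : Space (bd d F) ⊆ Space F := by
  classical
  rintro p ⟨h1, h2, τ, hτ, h3⟩
  rw [bd, Finset.mem_filter] at hτ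
  obtain ⟨-, σ, hσ, -⟩ := hτ
  exact ⟨h1, h2, σ, hσ.1, fun v hv => hσ.2 (h3 v hv)⟩

omit [Fintype V] in
theorem bd_nonempty {F : Finset (Finset V)} : ∀ τ ∈ bd 4 F, τ.Nonempty := by
  classical
  intro τ hτ
  rw [bd, Finset.mem_filter, Finset.mem_biUnion] at hτ
  obtain ⟨⟨σ, -, hσ⟩, -⟩ := hτ
  rw [Finset.mem_powersetCard] at hσ
  rw [← Finset.card_pos, hσ.2]
  norm_num

/-- The theorem, for an abstract boundary. -/
theorem assemble {W : Type*} [TopologicalSpace W] [ContractibleSpace W] (D : Set W)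
    (F : Finset (Finset V)) (hLC : IsLC 4 F) (h : Space F ≃ₜ W)
    (hD : ∀ p : Space F, (p : V → ℝ) ∈ Space (bd 4 F) ↔ h p ∈ D) (hpc : PathConnectedSpace D)
    (y0 : D) (h1 : ∀ θ : FundamentalGroup D y0 →* Multiplicative (ZMod 2), θ = 1)
    (θ : FundamentalGroup D y0 →* Q) : θ = 1 := by
  have hcontr : ContractibleSpace (Space F) := h.contractibleSpace
  let e : Space (bd 4 F) ≃ₜ D := bdHomeo h (space_bd_sub F) hD
  have hpc' : PathConnectedSpace (Space (bd 4 F)) := e.symm.surjective.pathConnectedSpace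
    e.symm.continuous
  have H2 : H2Zero F := h2_of_contractible F hcontr
  let x0 : Space (bd 4 F) := e.symm y0
  have hx0 : (e : C(Space (bd 4 F), D)) x0 = y0 := e.apply_symm_apply y0
  have H1 : ∀ g : V → V → Multiplicative (ZMod 2), Flat (bd 4 F) g → Triv (bd 4 F) g := by
    intro g hg
    refine triv_of_pi1 (bd 4 F) bd_nonempty hpc' x0 (fun θ => ?_) g hg
    have h3 := h1 (θ.comp (FundamentalGroup.mapOfEq (e.symm : C(D, Space (bd 4 F)))
      (show (e.symm : C(D, Space (bd 4 F))) y0 = x0 from rfl)))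
    ext p
    obtain ⟨q, rfl⟩ := map_surj e.symm (show (e.symm : C(D, Space (bd 4 F))) y0 = x0 from rfl) p
    exact DFunLike.congr_fun h3 q
  have h4 := Pool.Agent.Helper92.LCT4.pi1_of_triv (bd 4 F) bd_nonempty hpc' x0 (Γ := Q)
    (fun g hg => level1 hLC H1 H2 g hg) (θ.comp (FundamentalGroup.mapOfEq (e : C(_, _)) hx0))
  refine MonoidHom.ext fun p => ?_
  obtain ⟨q, rfl⟩ := map_surj e hx0 p
  exact DFunLike.congr_fun h4 q

end Pool.Agent.Helper26.LC
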