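import Mathlib
import Pool.Agent.Helper26.LC.Gamma

/-!
# The groups read off from the Kirby diagrams of Mazur's manifold
-/

set_option autoImplicit false

namespace Pool.Agent.Helper26.LC

open Quaternion

/-- The relations of the fundamental group of the boundary of the `4`-manifold with the following
Kirby diagram: a dotted circle and a `0`-framed knot `K`. Cut the complement of the dotted circle, a
solid torus `S¹ × D²`, along a disk `D²` meeting `K` in three points. In `[0,1] × D²` the knot `K`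
becomes three arcs: an arc `α` from the bottom point `1` to the bottom point `3`, an arc `β` from the
top point `3` to the top point `2` and an arc `γ` from the bottom point `2` to the top point `1`
(numbered from left to right). In the plane projection, running along `α` one meets a crossing with
`γ`, where `α` passes under (`s = false`) or over (`s = true`), and then two crossings with `β`, at
the first of which `α` passes over and at the second under (the clasp).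
The generators are the Wirtinger generators `a`, `b`, `c` of the three strands at the bottom and the
loop `t` around the solid torus; the strands at the top have the generators `t⁻¹ a t`, `t⁻¹ b t`,
`t⁻¹ c t`. The relations are those of the crossings, of the sphere `D² ∪ D²` (filling of the dotted
circle) and of the `0`-framed longitude of `K`. -/
def kirbyRels (s : Bool) : Set (FreeGroup (Fin 4)) :=
  let a := FreeGroup.of (0 : Fin 4)
  let b := FreeGroup.of (1 : Fin 4)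
  let c := FreeGroup.of (2 : Fin 4)
  let t := FreeGroup.of (3 : Fin 4)
  let T := fun g : FreeGroup (Fin 4) => t⁻¹ * g * t
  let a' := if s then a else b * a * b⁻¹
  {T a * (if s then a⁻¹ * b * a else b)⁻¹, T b * (a'⁻¹ * T c * a')⁻¹, c * ((T c)⁻¹ * a' * T c)⁻¹,
    c * (b * a)⁻¹,
    if s then T c * t * a' * t⁻¹ * a * t⁻¹ * a⁻¹ ^ 3 else b⁻¹ * T c * t * a' * t⁻¹ * t⁻¹ * a⁻¹}

/-- The group of the diagram. For `s = false` this is the diagram of Mazur's manifold `W⁺(0,0)`, whose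
boundary is the Brieskorn sphere `Σ(2,5,7)`. -/
abbrev KirbyGroup (s : Bool) : Type := PresentedGroup (kirbyRels s)

/-- No nontrivial homomorphism to `ℤ/2`, but one to the unit quaternions. -/
def SU2Rep (G : Type*) [Group G] : Prop :=
  (∀ θ : G →* Multiplicative (ZMod 2), θ = 1) ∧ ∃ θ : G →* Q, θ ≠ 1

theorem SU2Rep.of_equiv {G H : Type*} [Group G] [Group H] (e : G ≃* H) (h : SU2Rep H) :
    SU2Rep G := by
  refine ⟨fun θ => ?_, ?_⟩
  · have h1 := h.1 (θ.comp e.symm.toMonoidHom)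
    refine MonoidHom.ext fun p => ?_
    have h2 := DFunLike.congr_fun h1 (e p)
    have h3 : θ (e.symm (e p)) = 1 := h2
    rw [e.symm_apply_apply] at h3
    exact h3
  · obtain ⟨θ, hθ⟩ := h.2
    refine ⟨θ.comp e.toMonoidHom, fun h1 => hθ ?_⟩
    refine MonoidHom.ext fun p => ?_
    have h2 := DFunLike.congr_fun h1 (e.symm p)
    have h3 : θ (e (e.symm p)) = 1 := h2
    rw [e.apply_symm_apply] at h3
    exact h3

theorem gamma_su2 : SU2Rep Gamma257 := ⟨gamma_perfect, gamma_hom⟩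

theorem rel_apply' {rels : Set (FreeGroup (Fin 4))} {G : Type*} [Group G]
    (θ : PresentedGroup rels →* G) {r : FreeGroup (Fin 4)} (hr : r ∈ rels) :
    FreeGroup.lift (fun i => θ (PresentedGroup.of i)) r = 1 := by
  have h1 : FreeGroup.lift (fun i => θ (PresentedGroup.of i)) = θ.comp (PresentedGroup.mk rels) := by
    ext i
    simp [PresentedGroup.of]
  rw [h1, MonoidHom.comp_apply]
  have h2 : PresentedGroup.mk rels r = 1 := by
    rw [PresentedGroup.mk_eq_one_iff]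
    exact Subgroup.subset_normalClosure hr
  rw [h2, map_one]

theorem kirby_perfect (s : Bool) (θ : KirbyGroup s →* Multiplicative (ZMod 2)) : θ = 1 := by
  have key : ∀ a b c t : Multiplicative (ZMod 2),
      ((∀ r ∈ kirbyRels s, FreeGroup.lift ![a, b, c, t] r = 1) →
        a = 1 ∧ b = 1 ∧ c = 1 ∧ t = 1) := by
    intro a b c t h
    simp only [kirbyRels, Set.mem_insert_iff, Set.mem_singleton_iff, forall_eq_or_imp,
      forall_eq] at h
    cases s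
    · simp only [Bool.false_eq_true, if_false, map_mul, map_inv, FreeGroup.lift_apply_of,
        Matrix.cons_val] at h
      revert a b c t
      decide
    · simp only [if_true, map_mul, map_inv, map_pow, FreeGroup.lift_apply_of,
        Matrix.cons_val] at h
      revert a b c t
      decide
  have h1 := key (θ (PresentedGroup.of 0)) (θ (PresentedGroup.of 1)) (θ (PresentedGroup.of 2))
    (θ (PresentedGroup.of 3)) (by
      intro r hr
      have h2 := rel_apply' θ hr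
      have h3 : (fun i : Fin 4 => θ (PresentedGroup.of i)) =
          ![θ (PresentedGroup.of 0), θ (PresentedGroup.of 1), θ (PresentedGroup.of 2),
            θ (PresentedGroup.of 3)] := by
        funext i
        fin_cases i <;> rfl
      rw [← h3]
      exact h2)
  obtain ⟨ha, hb, hc, ht⟩ := h1
  refine PresentedGroup.ext fun i => ?_
  fin_cases i
  · exact ha
  · exact hb
  · exact hc
  · exact ht

/-- A homomorphism from the relations. -/
theorem hom_of_rels {rels : Set (FreeGroup (Fin 4))} (a b c t : Q) (ha : a ≠ 1)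
    (h : ∀ r ∈ rels, FreeGroup.lift ![a, b, c, t] r = 1) :
    ∃ θ : PresentedGroup rels →* Q, θ ≠ 1 := by
  refine ⟨PresentedGroup.toGroup h, fun h0 => ?_⟩
  have h1 : PresentedGroup.toGroup h (PresentedGroup.of (0 : Fin 4)) = a :=
    PresentedGroup.toGroup.of h
  rw [h0, MonoidHom.one_apply] at h1
  exact ha h1.symm

theorem kirby_hom_false : ∃ θ : KirbyGroup false →* Q, θ ≠ 1 := by
  obtain ⟨x, y, hx1, hx2, hy5, hxy7⟩ := exists_xy
  obtain ⟨p, hp⟩ : ∃ p, p = x * y := ⟨_, rfl⟩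
  obtain ⟨q, hq⟩ : ∃ q, q = p⁻¹ := ⟨_, rfl⟩
  rw [← hp] at hxy7
  have hxx : x * x = -1 := by rw [← sq, hx2]
  have hxi : x⁻¹ = -x := inv_eq_of_mul_eq_one_right (by rw [mul_neg, hxx, neg_neg])
  have hy : y = -(x * p) := by
    rw [hp, ← mul_assoc, hxx, neg_mul, one_mul, neg_neg]
  have h1' : ∀ g, x * (x * g) = -g := fun g => by rw [← mul_assoc, hxx, neg_mul, one_mul]
  have h2 : p * q = 1 := by rw [hq, mul_inv_cancel]
  have h3 : q * p = 1 := by rw [hq, inv_mul_cancel]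
  have h2' : ∀ g, p * (q * g) = g := fun g => by rw [← mul_assoc, h2, one_mul]
  have h3' : ∀ g, q * (p * g) = g := fun g => by rw [← mul_assoc, h3, one_mul]
  have hqi : q⁻¹ = p := by rw [hq, inv_inv]
  have hpi : p⁻¹ = q := hq.symm
  have h4 : p * (p * (p * p)) = -(q * (q * q)) := by
    have h : p ^ 7 * (q * (q * q)) = -1 * (q * (q * q)) := by rw [hxy7]
    have h' : p ^ 7 * (q * (q * q)) = p * (p * (p * p)) := by
      have h6 : p ^ 7 = p * (p * (p * (p * (p * (p * p))))) := by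
        simp only [pow_succ, pow_zero, one_mul, mul_assoc]
      rw [h6]
      simp only [mul_assoc, h2', h2, mul_one]
    rw [← h', h, neg_mul, one_mul]
  have h4' : ∀ g, p * (p * (p * (p * g))) = -(q * (q * (q * g))) := fun g => by
    have h : p * (p * (p * p)) * g = -(q * (q * q)) * g := by rw [h4]
    simpa only [mul_assoc, neg_mul] using h
  have h5 : q * (q * (q * q)) = -(p * (p * p)) := by
    have h : (p * (p * (p * p)))⁻¹ = (-(q * (q * q)))⁻¹ := by rw [h4]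
    simpa only [mul_inv_rev, Q.inv_neg', hpi, hqi, mul_assoc] using h
  have h5' : ∀ g, q * (q * (q * (q * g))) = -(p * (p * (p * g))) := fun g => by
    have h : q * (q * (q * q)) * g = -(p * (p * p)) * g := by rw [h5]
    simpa only [mul_assoc, neg_mul] using h
  have h7 : x * (p * (x * (p * x))) = q * (x * (q * (x * q))) := by
    have h : (x * (p * (x * (p * x)))) * (p * (x * (p * (x * p)))) = 1 := by
      have h6 : (x * p) ^ 5 = 1 := by
        have h8 : (-(x * p)) ^ 5 = -1 := by rw [← hy]; exact hy5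
        rw [Odd.neg_pow (by decide)] at h8
        exact neg_injective h8
      have h8 : (x * p) ^ 5 = (x * (p * (x * (p * x)))) * (p * (x * (p * (x * p)))) := by
        simp only [pow_succ, pow_zero, one_mul, mul_assoc]
      rw [← h8, h6]
    rw [eq_inv_of_mul_eq_one_left h]
    simp only [mul_inv_rev, hpi, hxi, mul_neg, neg_mul, neg_neg, mul_assoc]
  have h7' : ∀ g, x * (p * (x * (p * (x * g)))) = q * (x * (q * (x * (q * g)))) := fun g => by
    have h : x * (p * (x * (p * x))) * g = q * (x * (q * (x * q))) * g := by rw [h7]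
    simpa only [mul_assoc, neg_mul] using h
  have h6 : x * (q * (x * (q * x))) = -(p * (x * (p * (x * p)))) := by
    have h : (x * (p * (x * (p * x))))⁻¹ = (q * (x * (q * (x * q))))⁻¹ := by rw [h7]
    simp only [mul_inv_rev, hpi, hqi, hxi, mul_neg, neg_mul, neg_neg, mul_assoc] at h
    rw [← h, neg_neg]
  have h6' : ∀ g, x * (q * (x * (q * (x * g)))) = -(p * (x * (p * (x * (p * g))))) := fun g => by
    have h : x * (q * (x * (q * x))) * g = -(p * (x * (p * (x * p)))) * g := by rw [h6]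
    simpa only [mul_assoc, neg_mul] using h
  obtain ⟨a, ha⟩ : ∃ a, a = x * (p * p) := ⟨_, rfl⟩
  obtain ⟨t, ht⟩ : ∃ t, t = p * (p * x) := ⟨_, rfl⟩
  refine hom_of_rels a (t⁻¹ * a * t) (t⁻¹ * a * t * a) t ?_ ?_
  · intro h
    rw [ha] at h
    have h8 : x = q * q := by
      have h9 : x * (p * p) * (q * q) = 1 * (q * q) := by rw [h]
      simpa only [mul_assoc, h2', h2, mul_one, one_mul] using h9
    have h9 : q * (q * (q * q)) = -1 := by
      have h10 := hxx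
      rw [h8] at h10
      simpa only [mul_assoc] using h10
    rw [h5] at h9
    have h10 : p * (p * p) = 1 := neg_injective h9
    have h11 : p * (p * (p * (p * (p * (p * p))))) = -1 := by
      rw [← hxy7]
      simp only [pow_succ, pow_zero, one_mul, mul_assoc]
    have h12 : p = -1 := by
      have h13 : p * (p * (p * (p * (p * (p * p))))) = (p * (p * p)) * (p * (p * p)) * p := by
        simp only [mul_assoc]
      rw [h13, h10, one_mul, one_mul] at h11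
      exact h11
    rw [h12] at h10
    simp only [neg_mul, mul_neg, one_mul, neg_neg] at h10
    exact Q.neg_ne 1 h10
  · intro r hr
    simp only [kirbyRels, Bool.false_eq_true, if_false, Set.mem_insert_iff,
      Set.mem_singleton_iff] at hr
    rcases hr with rfl | rfl | rfl | rfl | rfl <;>
      simp only [map_mul, map_inv, FreeGroup.lift_apply_of, Matrix.cons_val] <;>
      simp only [ha, ht, mul_inv_rev, inv_inv, hpi, hqi, hxi, mul_neg, neg_mul, neg_neg, mul_assoc,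
        h1', hxx, h2, h2', h3, h3', h4, h4', h5, h5', h6, h6', h7, h7', mul_one, one_mul,
        Q.inv_neg', inv_one]

theorem qmul_mk (a b c d a' b' c' d' : ℝ) : (⟨a, b, c, d⟩ : ℍ[ℝ]) * ⟨a', b', c', d'⟩ =
    ⟨a * a' - b * b' - c * c' - d * d', a * b' + b * a' + c * d' - d * c',
      a * c' - b * d' + c * a' + d * b', a * d' + b * c' - c * b' + d * a'⟩ := by
  refine Quaternion.ext _ _ ?_ ?_ ?_ ?_
  · exact Quaternion.re_mul (⟨a, b, c, d⟩ : ℍ[ℝ]) ⟨a', b', c', d'⟩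
  · exact Quaternion.imI_mul (⟨a, b, c, d⟩ : ℍ[ℝ]) ⟨a', b', c', d'⟩
  · exact Quaternion.imJ_mul (⟨a, b, c, d⟩ : ℍ[ℝ]) ⟨a', b', c', d'⟩
  · exact Quaternion.imK_mul (⟨a, b, c, d⟩ : ℍ[ℝ]) ⟨a', b', c', d'⟩

/-- A product in the field generated by the square root of five. -/
theorem qmul5 {s : ℝ} (hs : s ^ 2 = 5) (a₁ b₁ a₂ b₂ a₃ b₃ a₄ b₄ c₁ d₁ c₂ d₂ c₃ d₃ c₄ d₄
    e₁ f₁ e₂ f₂ e₃ f₃ e₄ f₄ : ℝ)
    (h1 : a₁ * c₁ + 5 * b₁ * d₁ - (a₂ * c₂ + 5 * b₂ * d₂) - (a₃ * c₃ + 5 * b₃ * d₃) -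
      (a₄ * c₄ + 5 * b₄ * d₄) = 4 * e₁ ∧ a₁ * d₁ + b₁ * c₁ - (a₂ * d₂ + b₂ * c₂) -
      (a₃ * d₃ + b₃ * c₃) - (a₄ * d₄ + b₄ * c₄) = 4 * f₁)
    (h2 : a₁ * c₂ + 5 * b₁ * d₂ + (a₂ * c₁ + 5 * b₂ * d₁) + (a₃ * c₄ + 5 * b₃ * d₄) -
      (a₄ * c₃ + 5 * b₄ * d₃) = 4 * e₂ ∧ a₁ * d₂ + b₁ * c₂ + (a₂ * d₁ + b₂ * c₁) +
      (a₃ * d₄ + b₃ * c₄) - (a₄ * d₃ + b₄ * c₃) = 4 * f₂)
    (h3 : a₁ * c₃ + 5 * b₁ * d₃ - (a₂ * c₄ + 5 * b₂ * d₄) + (a₃ * c₁ + 5 * b₃ * d₁) +
      (a₄ * c₂ + 5 * b₄ * d₂) = 4 * e₃ ∧ a₁ * d₃ + b₁ * c₃ - (a₂ * d₄ + b₂ * c₄) +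
      (a₃ * d₁ + b₃ * c₁) + (a₄ * d₂ + b₄ * c₂) = 4 * f₃)
    (h4 : a₁ * c₄ + 5 * b₁ * d₄ + (a₂ * c₃ + 5 * b₂ * d₃) - (a₃ * c₂ + 5 * b₃ * d₂) +
      (a₄ * c₁ + 5 * b₄ * d₁) = 4 * e₄ ∧ a₁ * d₄ + b₁ * c₄ + (a₂ * d₃ + b₂ * c₃) -
      (a₃ * d₂ + b₃ * c₂) + (a₄ * d₁ + b₄ * c₁) = 4 * f₄) :
    (⟨(a₁ + b₁ * s) / 4, (a₂ + b₂ * s) / 4, (a₃ + b₃ * s) / 4, (a₄ + b₄ * s) / 4⟩ : ℍ[ℝ]) *
      ⟨(c₁ + d₁ * s) / 4, (c₂ + d₂ * s) / 4, (c₃ + d₃ * s) / 4, (c₄ + d₄ * s) / 4⟩ =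
      ⟨(e₁ + f₁ * s) / 4, (e₂ + f₂ * s) / 4, (e₃ + f₃ * s) / 4, (e₄ + f₄ * s) / 4⟩ := by
  rw [qmul_mk]
  congr 1
  · linear_combination (1 / 16) * (h1.1 + s * h1.2) +
      (1 / 16) * (b₁ * d₁ - b₂ * d₂ - b₃ * d₃ - b₄ * d₄) * hs
  · linear_combination (1 / 16) * (h2.1 + s * h2.2) +
      (1 / 16) * (b₁ * d₂ + b₂ * d₁ + b₃ * d₄ - b₄ * d₃) * hs
  · linear_combination (1 / 16) * (h3.1 + s * h3.2) +
      (1 / 16) * (b₁ * d₃ - b₂ * d₄ + b₃ * d₁ + b₄ * d₂) * hs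
  · linear_combination (1 / 16) * (h4.1 + s * h4.2) +
      (1 / 16) * (b₁ * d₄ + b₂ * d₃ - b₃ * d₂ + b₄ * d₁) * hs

/-- Quaternions with coordinates in the field generated by the square root of five. -/
noncomputable def q5 (a : Fin 8 → ℤ) : ℍ[ℝ] :=
  ⟨(a 0 + a 1 * Real.sqrt 5) / 4, (a 2 + a 3 * Real.sqrt 5) / 4, (a 4 + a 5 * Real.sqrt 5) / 4,
    (a 6 + a 7 * Real.sqrt 5) / 4⟩

theorem q5_mul (a b c : Fin 8 → ℤ)
    (h : (a 0 * b 0 + 5 * a 1 * b 1 - (a 2 * b 2 + 5 * a 3 * b 3) - (a 4 * b 4 + 5 * a 5 * b 5) -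
      (a 6 * b 6 + 5 * a 7 * b 7) = 4 * c 0 ∧ a 0 * b 1 + a 1 * b 0 - (a 2 * b 3 + a 3 * b 2) -
      (a 4 * b 5 + a 5 * b 4) - (a 6 * b 7 + a 7 * b 6) = 4 * c 1) ∧
      (a 0 * b 2 + 5 * a 1 * b 3 + (a 2 * b 0 + 5 * a 3 * b 1) + (a 4 * b 6 + 5 * a 5 * b 7) -
      (a 6 * b 4 + 5 * a 7 * b 5) = 4 * c 2 ∧ a 0 * b 3 + a 1 * b 2 + (a 2 * b 1 + a 3 * b 0) +
      (a 4 * b 7 + a 5 * b 6) - (a 6 * b 5 + a 7 * b 4) = 4 * c 3) ∧
      (a 0 * b 4 + 5 * a 1 * b 5 - (a 2 * b 6 + 5 * a 3 * b 7) + (a 4 * b 0 + 5 * a 5 * b 1) +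
      (a 6 * b 2 + 5 * a 7 * b 3) = 4 * c 4 ∧ a 0 * b 5 + a 1 * b 4 - (a 2 * b 7 + a 3 * b 6) +
      (a 4 * b 1 + a 5 * b 0) + (a 6 * b 3 + a 7 * b 2) = 4 * c 5) ∧
      (a 0 * b 6 + 5 * a 1 * b 7 + (a 2 * b 4 + 5 * a 3 * b 5) - (a 4 * b 2 + 5 * a 5 * b 3) +
      (a 6 * b 0 + 5 * a 7 * b 1) = 4 * c 6 ∧ a 0 * b 7 + a 1 * b 6 + (a 2 * b 5 + a 3 * b 4) -
      (a 4 * b 3 + a 5 * b 2) + (a 6 * b 1 + a 7 * b 0) = 4 * c 7)) : q5 a * q5 b = q5 c := by
  unfold q5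
  obtain ⟨⟨h1, h1'⟩, ⟨h2, h2'⟩, ⟨h3, h3'⟩, ⟨h4, h4'⟩⟩ := h
  refine qmul5 (Real.sq_sqrt (by norm_num)) _ _ _ _ _ _ _ _ _ _ _ _ _ _ _ _ _ _ _ _ _ _ _ _
    ⟨?_, ?_⟩ ⟨?_, ?_⟩ ⟨?_, ?_⟩ ⟨?_, ?_⟩ <;> exact_mod_cast (by assumption)

theorem q5_norm (a : Fin 8 → ℤ) (h : a 0 ^ 2 + 5 * a 1 ^ 2 + (a 2 ^ 2 + 5 * a 3 ^ 2) +
    (a 4 ^ 2 + 5 * a 5 ^ 2) + (a 6 ^ 2 + 5 * a 7 ^ 2) = 16)
    (h' : a 0 * a 1 + a 2 * a 3 + a 4 * a 5 + a 6 * a 7 = 0) :
    q5 a ∈ Metric.sphere (0 : ℍ[ℝ]) 1 := by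
  have hs : Real.sqrt 5 ^ 2 = 5 := Real.sq_sqrt (by norm_num)
  have h1 : ((a 0 : ℝ) ^ 2 + 5 * a 1 ^ 2 + (a 2 ^ 2 + 5 * a 3 ^ 2) +
    (a 4 ^ 2 + 5 * a 5 ^ 2) + (a 6 ^ 2 + 5 * a 7 ^ 2)) = 16 := by exact_mod_cast h
  have h1' : ((a 0 : ℝ) * a 1 + a 2 * a 3 + a 4 * a 5 + a 6 * a 7) = 0 := by exact_mod_cast h'
  have h2 : Quaternion.normSq (q5 a) = 1 := by
    rw [Quaternion.normSq_def']
    simp only [q5]
    linear_combination (1 / 16) * h1 + (1 / 8) * Real.sqrt 5 * h1' +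
      (1 / 16) * ((a 1 : ℝ) ^ 2 + a 3 ^ 2 + a 5 ^ 2 + a 7 ^ 2) * hs
  rw [mem_sphere_zero_iff_norm]
  rw [Quaternion.normSq_eq_norm_mul_self] at h2
  nlinarith [norm_nonneg (q5 a), mul_self_eq_one_iff.1 h2]

theorem kirby_hom_true : ∃ θ : KirbyGroup true →* Q, θ ≠ 1 := by
  let a : Q := ⟨q5 ![1, -1, 1, 1, -2, 0, 0, 0], q5_norm _ (by decide) (by decide)⟩
  let t : Q := ⟨q5 ![1, 1, -2, 0, 1, -1, 0, 0], q5_norm _ (by decide) (by decide)⟩
  let b : Q := ⟨q5 ![1, -1, 0, 0, -1, -1, 2, 0], q5_norm _ (by decide) (by decide)⟩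
  let c : Q := ⟨q5 ![1, -1, 0, 0, 1, 1, 2, 0], q5_norm _ (by decide) (by decide)⟩
  let Ta : Q := ⟨q5 ![1, -1, 2, 0, 0, 0, -1, -1], q5_norm _ (by decide) (by decide)⟩
  let Tb : Q := ⟨q5 ![1, -1, 0, 0, -1, -1, -2, 0], q5_norm _ (by decide) (by decide)⟩
  let Tc : Q := ⟨q5 ![1, -1, 2, 0, 0, 0, 1, 1], q5_norm _ (by decide) (by decide)⟩
  let v : Q := ⟨q5 ![-1, -1, 1, -1, 0, 0, -2, 0], q5_norm _ (by decide) (by decide)⟩
  let w : Q := ⟨q5 ![2, 0, -1, -1, 0, 0, -1, 1], q5_norm _ (by decide) (by decide)⟩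
  let a2 : Q := ⟨q5 ![-1, -1, -2, 0, -1, 1, 0, 0], q5_norm _ (by decide) (by decide)⟩
  let a3 : Q := ⟨q5 ![1, 1, -2, 0, -1, 1, 0, 0], q5_norm _ (by decide) (by decide)⟩
  have e1 : t * Ta = a * t := Subtype.ext ((q5_mul _ _ ![0, 0, 1, 1, 1, -1, -2, 0]
    (by decide)).trans (q5_mul _ _ _ (by decide)).symm)
  have e2 : a * Ta = c := Subtype.ext (q5_mul _ _ _ (by decide))
  have e3 : b * a = c := Subtype.ext (q5_mul _ _ _ (by decide))
  have e4 : t * Tb = b * t := Subtype.ext ((q5_mul _ _ ![-2, 0, -1, 1, -1, -1, 0, 0]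
    (by decide)).trans (q5_mul _ _ _ (by decide)).symm)
  have e5 : t * Tc = c * t := Subtype.ext ((q5_mul _ _ ![0, 0, -1, 1, 2, 0, 1, 1]
    (by decide)).trans (q5_mul _ _ _ (by decide)).symm)
  have e6 : a * Tb = Tc * a := Subtype.ext ((q5_mul _ _ ![1, -1, 0, 0, 1, 1, -2, 0]
    (by decide)).trans (q5_mul _ _ _ (by decide)).symm)
  have e7 : Tc * c = a * Tc := Subtype.ext ((q5_mul _ _ ![1, -1, -1, -1, -2, 0, 0, 0]
    (by decide)).trans (q5_mul _ _ _ (by decide)).symm)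
  have e8 : Tc * t = t * a := Subtype.ext ((q5_mul _ _ ![0, 0, 1, 1, 1, -1, 2, 0]
    (by decide)).trans (q5_mul _ _ _ (by decide)).symm)
  have e9 : Tc * Tc = v := Subtype.ext (q5_mul _ _ _ (by decide))
  have e10 : v * a = w := Subtype.ext (q5_mul _ _ _ (by decide))
  have e11 : a * a = a2 := Subtype.ext (q5_mul _ _ _ (by decide))
  have e12 : a2 * a = a3 := Subtype.ext (q5_mul _ _ _ (by decide))
  have e13 : a3 * t = w := Subtype.ext (q5_mul _ _ _ (by decide))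
  have hTa : t⁻¹ * a * t = Ta := by rw [mul_assoc, ← e1, inv_mul_cancel_left]
  have hTb : t⁻¹ * b * t = Tb := by rw [mul_assoc, ← e4, inv_mul_cancel_left]
  have hTc : t⁻¹ * c * t = Tc := by rw [mul_assoc, ← e5, inv_mul_cancel_left]
  refine hom_of_rels a b c t ?_ ?_
  · intro h
    have h1 : b = c := by rw [← e3, h, mul_one]
    have h2 : ((b : ℍ[ℝ])).imJ = ((c : ℍ[ℝ])).imJ := by rw [h1]
    simp only [b, c, q5, Matrix.cons_val] at h2
    push_cast at h2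
    have h3 := Real.sqrt_nonneg 5
    linarith
  · intro r hr
    simp only [kirbyRels, if_true, Set.mem_insert_iff, Set.mem_singleton_iff] at hr
    rcases hr with rfl | rfl | rfl | rfl | rfl <;>
      simp only [map_mul, map_inv, map_pow, FreeGroup.lift_apply_of, Matrix.cons_val]
    · rw [hTa, mul_inv_eq_one, mul_assoc, e3, ← e2, inv_mul_cancel_left]
    · rw [hTb, hTc, mul_inv_eq_one, mul_assoc, ← e6, inv_mul_cancel_left]
    · rw [hTc, mul_inv_eq_one, mul_assoc, ← e7, inv_mul_cancel_left]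
    · rw [mul_inv_eq_one, e3]
    · rw [hTc]
      have h1 : Tc * t * a * t⁻¹ * a * t⁻¹ * a⁻¹ ^ 3 = Tc * (t * a) * t⁻¹ * a * t⁻¹ * (a⁻¹ * a⁻¹ * a⁻¹) := by
        group
      rw [h1, ← e8]
      have h2 : Tc * (Tc * t) * t⁻¹ * a * t⁻¹ * (a⁻¹ * a⁻¹ * a⁻¹) =
          (Tc * Tc * a) * (a * a * a * t)⁻¹ := by group
      rw [h2, e9, e10, e11, e12, e13, mul_inv_cancel]

theorem kirby_su2 (s : Bool) : SU2Rep (KirbyGroup s) := by
  refine ⟨kirby_perfect s, ?_⟩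
  cases s
  · exact kirby_hom_false
  · exact kirby_hom_true

end Pool.Agent.Helper26.LC
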